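import Mathlib
import Pool.Agent.Lib.MP_bf61d2_nt.Trim.MV59.Stmts

set_option autoImplicit false

/-!
Mean values for all functions on the primes: the abstract sequences and the statements.
-/

namespace Pool.Agent.Lib.MP_bf61d2_nt.MV59
end Pool.Agent.Lib.MP_bf61d2_nt.MV59

namespace Pool.Agent.Lib.MP_bf61d2_nt.MV59U

open MeasureTheory Set Filter Topology

open MV59

/-- A sequence `b` with the trivial bound and with the convolution identity `b log = b * Λ`, where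
`Λ` is `c(p) √p log p` at the primes up to an absolutely convergent part. -/
structure GoodU (N : ℕ) (θ C : ℝ) (b c : ℕ → ℂ) : Prop where
  b0 : b 0 = 0
  ab : ∀ δ : ℝ, 0 < δ → δ ≤ 1 →
    Summable (fun n : ℕ => ‖b n‖ * (n : ℝ) ^ (-(3 / 2 + δ))) ∧
    ∑' n : ℕ, ‖b n‖ * (n : ℝ) ^ (-(3 / 2 + δ)) ≤ C / δ ^ (2 * N)
  cle : ∀ n, ‖c n‖ ≤ 2 * (N : ℝ)
  cz : ∀ n, ¬ n.Prime → c n = 0
  cv : ∃ Λ₂ : ℕ → ℂ, Λ₂ 0 = 0 ∧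
    Summable (fun k : ℕ => ‖Λ₂ k‖ * (k : ℝ) ^ (-(3 / 2) + θ)) ∧
    ∑' k : ℕ, ‖Λ₂ k‖ * (k : ℝ) ^ (-(3 / 2) + θ) ≤ C ∧
    ∀ n : ℕ, 1 ≤ n → b n * (Real.log n : ℂ) =
      ∑ p ∈ n.divisorsAntidiagonal, b p.1 *
        (c p.2 * ((Real.sqrt p.2 * Real.log p.2 : ℝ) : ℂ) + Λ₂ p.2)

/-- (L2) Local mean square of the derivative of the prime sum; `C` depends on `N` only. -/
def StL2U (N : ℕ) : Prop :=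
  ∃ C : ℝ, ∀ c : ℕ → ℂ, (∀ n, ‖c n‖ ≤ 2 * (N : ℝ)) → (∀ n, ¬ n.Prime → c n = 0) →
    ∀ δ : ℝ, 0 < δ → δ ≤ 1 → ∀ x : ℝ,
    ∫ t in x..(x + 1), ‖deriv (LSeries c) (((1 + δ : ℝ) : ℂ) + t * Complex.I)‖ ^ 2 ≤ C / δ

/-- (SQ) The weighted mean square of `A(u) log u`. -/
def StSQU (N : ℕ) (θ C₀ : ℝ) : Prop :=
  ∃ C : ℝ, ∀ b c : ℕ → ℂ, GoodU N θ C₀ b c → ∀ δ : ℝ, 0 < δ → δ ≤ 1 →
    ∀ G : ℝ, 0 ≤ G →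
    (∀ t : ℝ, |t| ≤ δ ^ (-(5 * N : ℝ)) →
      ‖LSeries b (((3 / 2 + δ : ℝ) : ℂ) + t * Complex.I)‖ ≤ G) →
    IntegrableOn (fun u : ℝ => ‖AA b u‖ ^ 2 * Real.log u ^ 2 *
      u ^ (-(4 + 2 * δ))) (Ioi 1) ∧
    ∫ u in Ioi (1 : ℝ), ‖AA b u‖ ^ 2 * Real.log u ^ 2 *
      u ^ (-(4 + 2 * δ)) ≤ C * (G ^ 2 + 1) / δ

/-- (PH) One scale controls all larger scales. -/
def StPHU (N : ℕ) (θ C₀ : ℝ) : Prop :=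
  ∃ C : ℝ, ∀ b c : ℕ → ℂ, GoodU N θ C₀ b c → ∀ δ₀ : ℝ, 0 < δ₀ → δ₀ ≤ 1 →
    ∀ G : ℝ, 1 ≤ G →
    (∀ t : ℝ, |t| ≤ 2 * δ₀ ^ (-(5 * N : ℝ)) →
      ‖LSeries b (((3 / 2 + δ₀ : ℝ) : ℂ) + t * Complex.I)‖ ≤ G) →
    ∀ δ t : ℝ, δ₀ ≤ δ → δ ≤ 1 → |t| ≤ δ₀ ^ (-(5 * N : ℝ)) →
      ‖LSeries b (((3 / 2 + δ : ℝ) : ℂ) + t * Complex.I)‖ ≤ C * G

/-- (PW) Pointwise bound. -/
def StPWU (N : ℕ) (θ C₀ : ℝ) : Prop :=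
  ∃ C : ℝ, ∀ b c : ℕ → ℂ, GoodU N θ C₀ b c → ∀ x : ℝ, 3 ≤ x → ∀ G : ℝ, 1 ≤ G →
    (∀ t : ℝ, |t| ≤ 2 * Real.log x ^ (5 * N : ℝ) →
      ‖LSeries b (((3 / 2 + 1 / Real.log x : ℝ) : ℂ) + t * Complex.I)‖ ≤ G) →
    ‖AA b x‖ ≤ C * x ^ (3 / 2 : ℝ) * G * (1 + Real.log (Real.log x)) / Real.log x

end Pool.Agent.Lib.MP_bf61d2_nt.MV59U
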