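import Mathlib
import Pool.Agent.Lib.MP_bf61d2_nt.Trim.Hardy.LogL
import Pool.Agent.Lib.MP_bf61d2_nt.Trim.MV59U.StmtsU
import Pool.Agent.Lib.MP_bf61d2_nt.Trim.MV59X.BaseX59

set_option autoImplicit false

/-!
Mean values for all functions on the primes: the trivial bounds, the logarithmic derivative.
-/

namespace NumberField
end NumberField

namespace Pool.Agent.Lib.MP_bf61d2_nt.Hardy
end Pool.Agent.Lib.MP_bf61d2_nt.Hardy

namespace Pool.Agent.Lib.MP_bf61d2_nt.MV59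
end Pool.Agent.Lib.MP_bf61d2_nt.MV59

namespace Pool.Agent.Lib.MP_bf61d2_nt.MV59U

open MeasureTheory Set Filter Topology NumberField IsDedekindDomain Hardy MV59

section

variable {N : ℕ} {θ C₀ : ℝ} {b c : ℕ → ℂ}

/-- The absolutely convergent series. -/
lemma GoodU.summable (h : GoodU N θ C₀ b c) {s : ℂ} (hs : 3 / 2 < s.re) : LSeriesSummable b s := by
  set δ : ℝ := min (s.re - 3 / 2) 1 with hδ
  have hδ0 : 0 < δ := lt_min (by linarith) one_pos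
  have hδ1 : δ ≤ 1 := min_le_right _ _
  have hδs : δ ≤ s.re - 3 / 2 := min_le_left _ _
  obtain ⟨h1, -⟩ := h.ab δ hδ0 hδ1
  refine Summable.of_norm (h1.of_nonneg_of_le (fun n => norm_nonneg _) fun n => ?_)
  rcases Nat.eq_zero_or_pos n with rfl | hn
  · simp [h.b0]
  · have hn0 : (0 : ℝ) < n := by exact_mod_cast hn
    have hn1 : (1 : ℝ) ≤ n := by exact_mod_cast hn
    rw [LSeries.norm_term_eq, if_neg hn.ne', div_eq_mul_inv, ← Real.rpow_neg hn0.le]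
    refine mul_le_mul_of_nonneg_left ?_ (norm_nonneg _)
    exact Real.rpow_le_rpow_of_exponent_le hn1 (by linarith)

lemma GoodU.abscissa (h : GoodU N θ C₀ b c) : LSeries.abscissaOfAbsConv b ≤ (3 / 2 : ℝ) := by
  refine LSeries.abscissaOfAbsConv_le_of_forall_lt_LSeriesSummable fun y hy => ?_
  exact h.summable (s := y) (by simpa using hy)

lemma GoodU.abscissa_lt (h : GoodU N θ C₀ b c) {s : ℂ} (hs : 3 / 2 < s.re) :
    LSeries.abscissaOfAbsConv b < s.re :=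
  lt_of_le_of_lt h.abscissa (by exact_mod_cast hs)

lemma cle' (hc : ∀ n, ‖c n‖ ≤ 2 * (N : ℝ)) (hz : ∀ n, ¬ n.Prime → c n = 0) (n : ℕ) :
    ‖c n‖ ≤ 2 * (N : ℝ) := by
  by_cases hn : n.Prime
  · exact hc n
  · rw [hz n hn, norm_zero]
    positivity

lemma summable_c (hc : ∀ n, ‖c n‖ ≤ 2 * (N : ℝ)) (hz : ∀ n, ¬ n.Prime → c n = 0) {w : ℂ}
    (hw : 1 < w.re) : LSeriesSummable c w := by
  refine LSeriesSummable_of_bounded_of_one_lt_re (m := 2 * (N : ℝ)) (fun n _ => ?_) hw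
  exact cle' hc hz n

lemma abscissa_c (hc : ∀ n, ‖c n‖ ≤ 2 * (N : ℝ)) (hz : ∀ n, ¬ n.Prime → c n = 0) :
    LSeries.abscissaOfAbsConv c ≤ (1 : ℝ) := by
  refine LSeries.abscissaOfAbsConv_le_of_forall_lt_LSeriesSummable fun y hy => ?_
  exact summable_c hc hz (w := y) (by simpa using hy)

lemma abscissa_c_lt (hc : ∀ n, ‖c n‖ ≤ 2 * (N : ℝ)) (hz : ∀ n, ¬ n.Prime → c n = 0) {w : ℂ}
    (hw : 1 < w.re) : LSeries.abscissaOfAbsConv c < w.re :=
  lt_of_le_of_lt (abscissa_c hc hz) (by exact_mod_cast hw)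

/-- The polynomial bound. -/
theorem GoodU.poly (h : GoodU N θ C₀ b c) {δ₀ : ℝ} {s : ℂ} (hδ : 0 < δ₀) (hδ1 : δ₀ ≤ 1)
    (hs : 3 / 2 + δ₀ ≤ s.re) : ‖LSeries b s‖ ≤ |C₀| * δ₀ ^ (-(2 * N : ℝ)) := by
  obtain ⟨h1, h2⟩ := h.ab δ₀ hδ hδ1
  have h3 : ∀ n : ℕ, ‖LSeries.term b s n‖ ≤ ‖b n‖ * (n : ℝ) ^ (-(3 / 2 + δ₀)) := by
    intro n
    rcases Nat.eq_zero_or_pos n with rfl | hn
    · simp [h.b0]
    · have hn0 : (0 : ℝ) < n := by exact_mod_cast hn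
      have hn1 : (1 : ℝ) ≤ n := by exact_mod_cast hn
      rw [LSeries.norm_term_eq, if_neg hn.ne', Real.rpow_neg hn0.le, ← div_eq_mul_inv]
      gcongr
  have h4 : ‖LSeries b s‖ ≤ ∑' n : ℕ, ‖b n‖ * (n : ℝ) ^ (-(3 / 2 + δ₀)) :=
    tsum_of_norm_bounded h1.hasSum h3
  refine h4.trans (h2.trans ?_)
  have e : δ₀ ^ (2 * N : ℝ) = δ₀ ^ (2 * N) := by
    rw [← Real.rpow_natCast]
    push_cast
    rfl
  rw [Real.rpow_neg hδ.le, ← div_eq_mul_inv, e]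
  gcongr
  exact le_abs_self C₀

lemma differentiableOn_c (hc : ∀ n, ‖c n‖ ≤ 2 * (N : ℝ)) (hz : ∀ n, ¬ n.Prime → c n = 0) :
    DifferentiableOn ℂ (LSeries c) {s : ℂ | 1 < s.re} := fun s hs =>
  (LSeries_hasDerivAt (abscissa_c_lt hc hz hs)).differentiableAt.differentiableWithinAt

/-- The logarithmic derivative on a vertical line. -/
noncomputable def DU (c Λ₂ : ℕ → ℂ) (δ t : ℝ) : ℂ :=
  -deriv (LSeries c) (((1 + δ : ℝ) : ℂ) + t * Complex.I) +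
    LSeries Λ₂ (((3 / 2 + δ : ℝ) : ℂ) + t * Complex.I)

lemma term_lam {Λ₂ : ℕ → ℂ} {θ : ℝ} (h0 : Λ₂ 0 = 0) (hθ : 0 ≤ θ) {s : ℂ} (hs : 3 / 2 < s.re)
    (n : ℕ) : ‖LSeries.term Λ₂ s n‖ ≤ ‖Λ₂ n‖ * (n : ℝ) ^ (-(3 / 2) + θ) := by
  rcases Nat.eq_zero_or_pos n with rfl | hn
  · simp [h0]
  · have hn0 : (0 : ℝ) < n := by exact_mod_cast hn
    have hn1 : (1 : ℝ) ≤ n := by exact_mod_cast hn
    rw [LSeries.norm_term_eq, if_neg hn.ne', div_eq_mul_inv, ← Real.rpow_neg hn0.le]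
    refine mul_le_mul_of_nonneg_left ?_ (norm_nonneg _)
    exact Real.rpow_le_rpow_of_exponent_le hn1 (by linarith)

lemma summable_lam {Λ₂ : ℕ → ℂ} {θ : ℝ} (h0 : Λ₂ 0 = 0) (hθ : 0 ≤ θ)
    (hs : Summable (fun k : ℕ => ‖Λ₂ k‖ * (k : ℝ) ^ (-(3 / 2) + θ))) {s : ℂ} (h : 3 / 2 < s.re) :
    LSeriesSummable Λ₂ s :=
  Summable.of_norm (hs.of_nonneg_of_le (fun _ => norm_nonneg _) (term_lam h0 hθ h))

lemma norm_lam_le {Λ₂ : ℕ → ℂ} {θ C : ℝ} (h0 : Λ₂ 0 = 0) (hθ : 0 ≤ θ)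
    (hs : Summable (fun k : ℕ => ‖Λ₂ k‖ * (k : ℝ) ^ (-(3 / 2) + θ)))
    (hC : ∑' k : ℕ, ‖Λ₂ k‖ * (k : ℝ) ^ (-(3 / 2) + θ) ≤ C) {s : ℂ} (h : 3 / 2 < s.re) :
    ‖LSeries Λ₂ s‖ ≤ C :=
  (tsum_of_norm_bounded hs.hasSum (term_lam h0 hθ h)).trans hC

lemma continuous_DU {Λ₂ : ℕ → ℂ} (hc : ∀ n, ‖c n‖ ≤ 2 * (N : ℝ))
    (hz : ∀ n, ¬ n.Prime → c n = 0) {θ : ℝ} (h0 : Λ₂ 0 = 0) (hθ : 0 ≤ θ)
    (hs : Summable (fun k : ℕ => ‖Λ₂ k‖ * (k : ℝ) ^ (-(3 / 2) + θ))) {δ : ℝ} (hδ : 0 < δ) :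
    Continuous (DU c Λ₂ δ) := by
  unfold DU
  refine Continuous.add (Continuous.neg ?_) ?_
  · have h2 := ((differentiableOn_c hc hz).deriv (isOpen_half 1)).continuousOn
    refine h2.comp_continuous (by fun_prop) fun t => ?_
    simp [hδ]
  · have h3 : DifferentiableOn ℂ (LSeries Λ₂) {s : ℂ | 3 / 2 < s.re} := by
      intro s hs'
      have h4 : LSeries.abscissaOfAbsConv Λ₂ ≤ (3 / 2 : ℝ) :=
        LSeries.abscissaOfAbsConv_le_of_forall_lt_LSeriesSummable fun y hy =>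
          summable_lam h0 hθ hs (s := y) (by simpa using hy)
      have h5 : LSeries.abscissaOfAbsConv Λ₂ < s.re := by
        refine lt_of_le_of_lt h4 ?_
        have : (3 / 2 : ℝ) < s.re := hs'
        exact_mod_cast this
      exact (LSeries_hasDerivAt h5).differentiableAt.differentiableWithinAt
    refine h3.continuousOn.comp_continuous (by fun_prop) fun t => line_mem hδ t

lemma continuous_dc (hc : ∀ n, ‖c n‖ ≤ 2 * (N : ℝ)) (hz : ∀ n, ¬ n.Prime → c n = 0) {δ : ℝ} (hδ : 0 < δ) :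
    Continuous fun t : ℝ => deriv (LSeries c)
      (((1 + δ : ℝ) : ℂ) + t * Complex.I) := by
  have h2 := ((differentiableOn_c hc hz).deriv (isOpen_half 1)).continuousOn
  refine h2.comp_continuous (by fun_prop) fun t => ?_
  simp [hδ]

lemma LSeries_logMulU (h : GoodU N θ C₀ b c) {Λ₂ : ℕ → ℂ} (h0 : Λ₂ 0 = 0) (hθ : 0 ≤ θ)
    (hs : Summable (fun k : ℕ => ‖Λ₂ k‖ * (k : ℝ) ^ (-(3 / 2) + θ)))
    (hconv : ∀ n : ℕ, 1 ≤ n → b n * (Real.log n : ℂ) =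
      ∑ p ∈ n.divisorsAntidiagonal, b p.1 *
        (c p.2 * ((Real.sqrt p.2 * Real.log p.2 : ℝ) : ℂ) + Λ₂ p.2))
    {δ : ℝ} (hδ : 0 < δ) (t : ℝ) :
    LSeries (LSeries.logMul b) (((3 / 2 + δ : ℝ) : ℂ) + t * Complex.I) =
      LSeries b (((3 / 2 + δ : ℝ) : ℂ) + t * Complex.I) * DU c Λ₂ δ t := by
  have hmem := line_mem hδ t
  set s : ℂ := ((3 / 2 + δ : ℝ) : ℂ) + t * Complex.I with hsdef
  have hs12 : s - 1 / 2 = ((1 + δ : ℝ) : ℂ) + t * Complex.I := by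
    rw [hsdef]; push_cast; ring
  have hre : 1 < (s - 1 / 2).re := by rw [hs12]; simp [hδ]
  set f : ℕ → ℂ := fun n => c n * ((Real.sqrt n * Real.log n : ℝ) : ℂ) with hf
  -- the terms of the shifted series
  have hterm : ∀ n : ℕ, LSeries.term f s n = LSeries.term (LSeries.logMul c) (s - 1 / 2) n := by
    intro n
    rcases Nat.eq_zero_or_pos n with rfl | hn
    · simp
    · have hnC : (n : ℂ) ≠ 0 := by exact_mod_cast hn.ne'
      rw [LSeries.term_of_ne_zero hn.ne', LSeries.term_of_ne_zero hn.ne', LSeries.logMul,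
        Complex.cpow_sub _ _ hnC, hf]
      simp only
      have e1 : ((Real.sqrt n : ℝ) : ℂ) = (n : ℂ) ^ (1 / 2 : ℂ) := by
        rw [Real.sqrt_eq_rpow, Complex.ofReal_cpow (Nat.cast_nonneg n)]
        push_cast
        rfl
      have e2 : (n : ℂ) ^ (1 / 2 : ℂ) ≠ 0 := by
        rw [Ne, Complex.cpow_eq_zero_iff]
        tauto
      rw [Complex.ofReal_mul, e1, Complex.natCast_log, div_div_eq_mul_div]
      ring
  have hf1 : LSeriesSummable f s := by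
    have h1 : LSeriesSummable (LSeries.logMul c) (s - 1 / 2) :=
      LSeriesSummable_logMul_of_lt_re (abscissa_c_lt h.cle h.cz hre)
    have e : LSeries.term f s = LSeries.term (LSeries.logMul c) (s - 1 / 2) := funext hterm
    rw [LSeriesSummable, e]
    exact h1
  have hf2 : LSeries f s = -deriv (LSeries c) (s - 1 / 2) := by
    rw [LSeries_deriv (abscissa_c_lt h.cle h.cz hre), neg_neg, LSeries, LSeries]
    exact tsum_congr hterm
  have hl := summable_lam h0 hθ hs hmem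
  have h1 : LSeries (LSeries.logMul b) s = LSeries (LSeries.convolution b (f + Λ₂)) s := by
    refine LSeries_congr (fun {n} hn => ?_) s
    rw [LSeries.convolution_def, LSeries.logMul]
    have h2 := hconv n (Nat.pos_of_ne_zero hn)
    rw [mul_comm, ← Complex.natCast_log, h2]
    rfl
  rw [h1, LSeries_convolution' (h.summable hmem) (hf1.add hl), LSeries_add hf1 hl, hf2, DU,
    hs12]

end

end Pool.Agent.Lib.MP_bf61d2_nt.MV59U
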