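import Mathlib
import Pool.Agent.Lib.MP_bf61d2_nt.Trim.Analytic
import Pool.Agent.Lib.MP_bf61d2_nt.Trim.Artin.U2.CST36
import Pool.Agent.Lib.MP_bf61d2_nt.Trim.Artin.UK.INTLU88
import Pool.Agent.Lib.MP_bf61d2_nt.Trim.Euler
import Pool.Agent.Lib.MP_bf61d2_nt.Trim.LocalCurve
import Pool.Agent.Lib.MP_bf61d2_nt.Trim.MV59.AB38
import Pool.Agent.Lib.MP_bf61d2_nt.Trim.MV59.CV40
import Pool.Agent.Lib.MP_bf61d2_nt.Trim.MV59U.StmtsU
import Pool.Agent.Lib.MP_bf61d2_nt.Trim.MV59Y.BaseY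
import Pool.Agent.Lib.MP_bf61d2_nt.Trim.MV59Y.CVY
import Pool.Agent.Lib.MP_bf61d2_nt.Trim.MV59Y.EulerC
import Pool.Agent.Lib.MP_bf61d2_nt.Trim.MV59Y.LFunY
import Pool.Agent.Lib.MP_bf61d2_nt.Trim.Places
import Pool.Agent.Lib.MP_bf61d2_nt.Trim.PrimeSum

set_option autoImplicit false

/-!
The coefficients of the twisted L-functions are good sequences, with constants that depend only on
the degree of the field.
-/

namespace NumberField
end NumberField

namespace Pool.Agent.Lib.MP_bf61d2_nt.MV59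
end Pool.Agent.Lib.MP_bf61d2_nt.MV59

namespace Pool.Agent.Lib.MP_bf61d2_nt.MV59Y
end Pool.Agent.Lib.MP_bf61d2_nt.MV59Y

namespace Pool.Agent.Lib.MP_bf61d2_nt.MV59U

open Filter Topology NumberField IsDedekindDomain ArithmeticFunction MV59 Module

open MV59Y (LFun LFun_eq facC facC_cofinite norm_facC_le norm_euler_le sum_majorant_le)

universe u

/-- The trivial bound. -/
theorem abU (N : ℕ) : ∃ C : ℝ, ∀ (K : Type u) [Field K] [NumberField K], finrank ℚ K = N →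
    ∀ (W : WeierstrassCurve K)
    (ψ : HeightOneSpectrum (𝓞 K) → ℂ), (∀ v, ‖ψ v‖ ≤ 1) → ∀ δ : ℝ, 0 < δ → δ ≤ 1 →
    Summable (fun n : ℕ => ‖LFun W ψ n‖ * (n : ℝ) ^ (-(3 / 2 + δ))) ∧
    ∑' n : ℕ, ‖LFun W ψ n‖ * (n : ℝ) ^ (-(3 / 2 + δ)) ≤ C / δ ^ (2 * N) := by
  classical
  obtain ⟨C₁, hC₁0, hC₁⟩ := Artin.Ray.PS_le88.{u}
  set h : ℕ → ℝ := fun n => 26 / (n : ℝ) ^ 2 + if n = 2 then (24 : ℝ) else 0 with hh
  have hh0 : ∀ n, 0 ≤ h n := fun n => by
    rw [hh]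
    simp only
    split_ifs <;> positivity
  have hhs : Summable h := by
    refine Summable.add ?_ ?_
    · have := (Real.summable_one_div_nat_pow.mpr (by norm_num : 1 < 2)).mul_left 26
      refine this.congr fun n => by ring
    · exact (hasSum_ite_eq 2 (24 : ℝ)).summable
  refine ⟨Real.exp (2 * N * C₁ + N * ∑' n, h n), fun K _ _ hK W ψ hψ δ hδ hδ1 => ?_⟩
  set y : HeightOneSpectrum (𝓞 K) → ℝ :=
    fun v => 26 / (pr v : ℝ) ^ 2 + if pr v = 2 then 24 else 0 with hy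
  have hys : Summable y := summable_pr (h := h) hh0 hhs
  have hysum : ∑' v, y v ≤ N * ∑' n, h n := by
    rw [← hK]
    exact Artin.Ray.tsum_pr_le36 K hh0 hhs
  have hy0 : ∀ v, 0 ≤ y v := fun v => hh0 (pr v)
  have hxs : Summable fun v : HeightOneSpectrum (𝓞 K) => AB38.xx v δ :=
    ((summable_wp (K := K) (by linarith : (1 : ℝ) < 1 + δ)).mul_left 2).add hys
  have hx0 : ∀ v : HeightOneSpectrum (𝓞 K), 0 ≤ AB38.xx v δ := fun v =>
    add_nonneg (mul_nonneg (by norm_num) (wp_pos _ v).le) (hy0 v)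
  have hxsum : ∑' v : HeightOneSpectrum (𝓞 K), AB38.xx v δ = 2 * PS K (1 + δ) + ∑' v, y v := by
    have h1 := ((summable_wp (K := K) (by linarith : (1 : ℝ) < 1 + δ)).mul_left 2).tsum_add hys
    rw [tsum_mul_left] at h1
    exact h1
  have hmain := sum_majorant_le (f := fac W) (fac_cofinite W) (σ := 3 / 2 + δ)
    (x := fun v => AB38.xx v δ) hxs hx0
    (fun v => (hasSum_fac W v (s := ((3 / 2 + δ : ℝ) : ℂ))
      (by rw [Complex.ofReal_re]; linarith)).LSeriesSummable)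
    (fun v => AB38.local_le W v hδ)
  have hterm : ∀ n : ℕ, ‖LFun W ψ n‖ * (n : ℝ) ^ (-(3 / 2 + δ)) ≤ ‖LSeries.term (fun n =>
      ((eulerProduct (fun v => absA (fac W v)) n : ℤ) : ℂ)) ((3 / 2 + δ : ℝ) : ℂ) n‖ := by
    intro n
    rw [LSeries.norm_term_eq]
    split_ifs with h0
    · subst h0
      rw [ArithmeticFunction.map_zero]
      simp
    · rw [Complex.ofReal_re, Real.rpow_neg (Nat.cast_nonneg n), ← div_eq_mul_inv]
      have h1 := norm_euler_le (f := fac W) (F := facC W ψ) (fac_cofinite W)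
        (fun v => fac_one W v) (facC_cofinite W ψ) (fun v n => norm_facC_le W v hψ n) n
      rw [← LFun_eq] at h1
      gcongr
      refine h1.trans ?_
      rw [Complex.norm_intCast]
      exact le_abs_self _
  have hexp : Real.exp (∑' v : HeightOneSpectrum (𝓞 K), AB38.xx v δ) ≤
      Real.exp (2 * N * C₁ + N * ∑' n, h n) / δ ^ (2 * N) := by
    rw [hxsum]
    have h1 := hC₁ K δ hδ hδ1
    rw [hK] at h1
    have h2 : Real.exp (2 * PS K (1 + δ) + ∑' v, y v) ≤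
        Real.exp ((2 * N : ℕ) * Real.log (1 / δ) + (2 * N * C₁ + N * ∑' n, h n)) :=
      Real.exp_le_exp.2 (by push_cast; linarith)
    refine h2.trans (le_of_eq ?_)
    rw [Real.exp_add, Real.exp_nat_mul, Real.exp_log (by positivity), one_div, inv_pow]
    ring
  have hmain' : ∀ T : Finset ℕ, ∑ n ∈ T, ‖LFun W ψ n‖ * (n : ℝ) ^ (-(3 / 2 + δ)) ≤
      Real.exp (∑' v : HeightOneSpectrum (𝓞 K), AB38.xx v δ) := fun T =>
    (Finset.sum_le_sum fun n _ => hterm n).trans (hmain T)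
  have hs : Summable fun n : ℕ => ‖LFun W ψ n‖ * (n : ℝ) ^ (-(3 / 2 + δ)) :=
    summable_of_sum_le (fun n => by positivity) hmain'
  exact ⟨hs, (hs.tsum_le_of_sum_le hmain').trans hexp⟩

/-- The coefficients of the twisted L-function are a good sequence. -/
theorem goodU (N : ℕ) : ∃ C : ℝ, ∀ (K : Type u) [Field K] [NumberField K], finrank ℚ K = N →
    ∀ (W : WeierstrassCurve K) (ψ : HeightOneSpectrum (𝓞 K) → ℂ), (∀ v, ‖ψ v‖ ≤ 1) →
    GoodU N (1 / 64) C (fun n => LFun W ψ n) (MV59Y.CVY.cpC W ψ) := by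
  obtain ⟨C₁, hC₁⟩ := abU.{u} N
  set h : ℕ → ℝ := fun n => 8000 * (n : ℝ) ^ (-(3 / 2) : ℝ) with hh
  have hh0 : ∀ n, 0 ≤ h n := fun n => by
    rw [hh]
    positivity
  have hhs : Summable h := (Real.summable_nat_rpow.mpr (by norm_num)).mul_left _
  refine ⟨max C₁ (N * ∑' n, h n), fun K _ _ hK W ψ hψ => ⟨by simp, fun δ hδ hδ1 => ?_, fun n => ?_,
    fun n hn => MV59Y.CVY.cpC_eq_zero W ψ hn, MV59Y.CVY.Lam2 W ψ, ?_, ?_, ?_,
    fun n _ => MV59Y.CVY.identity W hψ⟩⟩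
  · obtain ⟨h1, h2⟩ := hC₁ K hK W ψ hψ δ hδ hδ1
    refine ⟨h1, h2.trans ?_⟩
    gcongr
    exact le_max_left _ _
  · have h1 := MV59Y.cle' (K := K) (c := MV59Y.CVY.cpC W ψ) (MV59Y.CVY.norm_cpC_le W hψ)
      (fun n hn => MV59Y.CVY.cpC_eq_zero W ψ hn) n
    rwa [hK] at h1
  · rw [MV59Y.CVY.Lam2]
    simp
  · have h := (MV59Y.CVY.summable_lam2 W hψ).1
    have e : (-(3 / 2) + 1 / 64 : ℝ) = -CV40.sg := by rw [CV40.sg]; ring
    simp_rw [e]
    exact h
  · have h1 := (MV59Y.CVY.summable_lam2 W hψ).2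
    have e : (-(3 / 2) + 1 / 64 : ℝ) = -CV40.sg := by rw [CV40.sg]; ring
    simp_rw [e]
    refine h1.trans (le_trans ?_ (le_max_right _ _))
    rw [← hK]
    exact Artin.Ray.tsum_pr_le36 K (h := h) hh0 hhs

end Pool.Agent.Lib.MP_bf61d2_nt.MV59U
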