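import Mathlib
import Pool.Agent.Lib.MP_bf61d2_nt.Trim.MV59.L2x38
import Pool.Agent.Lib.MP_bf61d2_nt.Trim.MV59U.BaseU
import Pool.Agent.Lib.MP_bf61d2_nt.Trim.MV59U.StmtsU
import Pool.Agent.Lib.MP_bf61d2_nt.Trim.MV59X.BaseX59

set_option autoImplicit false

/-!
Mean values (MP_bf61d2_nt), module L2 for all functions on the primes: the local mean square of the
derivative of the prime sum (the proof of L2x38 by helper38).
-/

namespace Pool.Agent.Lib.MP_bf61d2_nt.MV59
end Pool.Agent.Lib.MP_bf61d2_nt.MV59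

namespace Pool.Agent.Lib.MP_bf61d2_nt.MV59U

open MeasureTheory Set Filter Topology

open MV59

/-- L2 -/
theorem l2u (N : ℕ) : StL2U N := by
  set d : ℝ := (N : ℝ) with hd
  have hd0 : 0 ≤ d := by rw [hd]; positivity
  refine ⟨32768 * d ^ 2, fun f hcl hcz δ hδ hδ1 x => ?_⟩
  set b : ℕ → ℂ := fun n => LSeries.term (LSeries.logMul f) ((1 + δ : ℝ) : ℂ) n with hb
  set β : ℕ → ℝ := fun n => if n.Prime then 2 * d * Real.log n * (n : ℝ) ^ (-(1 + δ)) else 0 with hβ
  have hβ0 : ∀ n, 0 ≤ β n := by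
    intro n
    rw [hβ]
    simp only
    split_ifs
    · have := Real.log_natCast_nonneg n
      positivity
    · exact le_rfl
  have hbβ : ∀ n, ‖b n‖ ≤ β n := by
    intro n
    rw [hb, hβ]
    simp only
    by_cases hn : n.Prime
    · rw [if_pos hn]
      have hn0 : n ≠ 0 := hn.ne_zero
      have hn1 : (0 : ℝ) < n := by exact_mod_cast hn.pos
      rw [LSeries.term_of_ne_zero hn0, norm_div]
      have h1 : ‖((n : ℂ) ^ (((1 + δ : ℝ) : ℂ)))‖ = (n : ℝ) ^ (1 + δ) := by
        rw [Complex.norm_natCast_cpow_of_pos hn.pos, Complex.ofReal_re]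
      have h2 : ‖LSeries.logMul f n‖ ≤ 2 * d * Real.log n := by
        rw [LSeries.logMul, norm_mul, ← Complex.natCast_log, Complex.norm_real, Real.norm_eq_abs,
          abs_of_nonneg (Real.log_natCast_nonneg n), mul_comm]
        refine mul_le_mul_of_nonneg_right ?_ (Real.log_natCast_nonneg n)
        refine (hcl n).trans ?_
        rw [hd]
      rw [h1, Real.rpow_neg hn1.le, ← div_eq_mul_inv]
      gcongr
    · rw [if_neg hn]
      have h1 : f n = 0 := hcz n hn
      have h2 : LSeries.term (LSeries.logMul f) ((1 + δ : ℝ) : ℂ) n = 0 := by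
        rw [LSeries.term_def]
        split_ifs
        · rfl
        · rw [LSeries.logMul]
          simp [h1]
      rw [h2, norm_zero]
  -- the series
  have hab : LSeries.abscissaOfAbsConv f < ((1 + δ : ℝ) : EReal) := by
    have h1 : LSeriesSummable f (((1 + δ / 2 : ℝ)) : ℂ) :=
      summable_c hcl hcz (by rw [Complex.ofReal_re]; linarith)
    have h2 := h1.abscissaOfAbsConv_le
    rw [Complex.ofReal_re] at h2
    refine h2.trans_lt ?_
    exact_mod_cast (by linarith : (1 + δ / 2 : ℝ) < 1 + δ)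
  have hre : ∀ t : ℝ, ((((1 + δ : ℝ) : ℂ) + t * Complex.I).re : EReal) = ((1 + δ : ℝ) : EReal) := by
    intro t
    congr 1
    simp
  have hterm : ∀ (t : ℝ) (n : ℕ), LSeries.term (LSeries.logMul f) (((1 + δ : ℝ) : ℂ) + t * Complex.I) n =
      b n * Complex.exp (((-(t * Real.log n) : ℝ) : ℂ) * Complex.I) := by
    intro t n
    rw [hb]
    simp only
    rcases Nat.eq_zero_or_pos n with rfl | hn
    · simp
    · rw [LSeries.term_of_ne_zero hn.ne', LSeries.term_of_ne_zero hn.ne',
        Complex.cpow_add _ _ (by exact_mod_cast hn.ne')]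
      have h1 : ((n : ℂ) ^ ((t : ℂ) * Complex.I))⁻¹ =
          Complex.exp (((-(t * Real.log n) : ℝ) : ℂ) * Complex.I) := by
        rw [Complex.cpow_def_of_ne_zero (by exact_mod_cast hn.ne'), ← Complex.exp_neg,
          ← Complex.natCast_log]
        congr 1
        push_cast
        ring
      rw [div_mul_eq_div_div, div_eq_mul_inv (_ / _) ((n : ℂ) ^ ((t : ℂ) * Complex.I)), h1]
  have hsb : Summable b := LSeriesSummable_logMul_of_lt_re (f := f) (s := ((1 + δ : ℝ) : ℂ))
    (by rw [Complex.ofReal_re]; exact hab)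
  have hsn : Summable fun n => ‖b n‖ := hsb.norm
  have hderiv : ∀ t : ℝ, HasSum (fun n => b n * Complex.exp (((-(t * Real.log n) : ℝ) : ℂ) * Complex.I))
      (-deriv (LSeries f) (((1 + δ : ℝ) : ℂ) + t * Complex.I)) := by
    intro t
    have h1 := LSeries_deriv (f := f) (s := ((1 + δ : ℝ) : ℂ) + t * Complex.I) (by rw [hre]; exact hab)
    have h2 : LSeriesSummable (LSeries.logMul f) (((1 + δ : ℝ) : ℂ) + t * Complex.I) :=
      LSeriesSummable_logMul_of_lt_re (by rw [hre]; exact hab)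
    rw [h1, neg_neg]
    have h3 := h2.hasSum
    have h4 : (fun n => b n * Complex.exp (((-(t * Real.log n) : ℝ) : ℂ) * Complex.I)) =
        LSeries.term (LSeries.logMul f) (((1 + δ : ℝ) : ℂ) + t * Complex.I) :=
      funext fun n => (hterm t n).symm
    rw [h4]
    exact h3
  -- bounds for the partial sums
  have hpart : ∀ N : ℕ, ∫ t in x..(x + 1), ‖∑ n ∈ Finset.range N,
      b n * Complex.exp (((-(t * Real.log n) : ℝ) : ℂ) * Complex.I)‖ ^ 2 ≤ 32768 * d ^ 2 / δ := by
    intro N
    refine (MV59.L38.mean_sq (Finset.range N) b (fun n => Real.log n) x).trans ?_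
    have h1 : ∑ m ∈ Finset.range N, ∑ n ∈ Finset.range N,
        ‖b m‖ * ‖b n‖ * Real.exp (-(Real.log m - Real.log n) ^ 2 / 2) ≤
        ∑ m ∈ Finset.range N, ∑ n ∈ Finset.range N,
        β m * β n * Real.exp (-(Real.log m - Real.log n) ^ 2 / 2) := by
      refine Finset.sum_le_sum fun m _ => Finset.sum_le_sum fun n _ => ?_
      have h2 := hbβ m
      have h3 := hbβ n
      have h4 := hβ0 m
      gcongr
    have h2 := MV59.L38.double_sum (N := N) hβ0 (by rw [hβ]; simp [Nat.not_prime_zero])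
    have h3 : ∀ k ∈ Finset.Icc 1 (2 * N),
        (∑ m ∈ Finset.Icc 1 k, β m * (m : ℝ) ^ 2) ^ 2 / (k : ℝ) ^ 5 ≤
        16 * d ^ 2 * (k : ℝ) ^ (-1 - 2 * δ) := by
      intro k hk
      rw [Finset.mem_Icc] at hk
      have hk0 : (0 : ℝ) < k := by exact_mod_cast hk.1
      have h4 : ∑ m ∈ Finset.Icc 1 k, β m * (m : ℝ) ^ 2 ≤ 4 * d * (k : ℝ) ^ (2 - δ) := by
        have h5 : ∀ m ∈ Finset.Icc 1 k, β m * (m : ℝ) ^ 2 ≤
            2 * d * (k : ℝ) ^ (1 - δ) * (if m.Prime then Real.log m else 0) := by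
          intro m hm
          rw [Finset.mem_Icc] at hm
          rw [hβ]
          simp only
          split_ifs with hp
          · have hm0 : (0 : ℝ) < m := by exact_mod_cast hm.1
            have h6 : (m : ℝ) ^ (-(1 + δ)) * (m : ℝ) ^ 2 = (m : ℝ) ^ (1 - δ) := by
              rw [← Real.rpow_natCast, ← Real.rpow_add hm0]
              congr 1
              push_cast
              ring
            have h7 : (m : ℝ) ^ (1 - δ) ≤ (k : ℝ) ^ (1 - δ) :=
              Real.rpow_le_rpow hm0.le (by exact_mod_cast hm.2) (by linarith)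
            have h8 := Real.log_natCast_nonneg m
            calc 2 * d * Real.log m * (m : ℝ) ^ (-(1 + δ)) * (m : ℝ) ^ 2
                = 2 * d * Real.log m * ((m : ℝ) ^ (-(1 + δ)) * (m : ℝ) ^ 2) := by ring
              _ = 2 * d * Real.log m * (m : ℝ) ^ (1 - δ) := by rw [h6]
              _ ≤ 2 * d * Real.log m * (k : ℝ) ^ (1 - δ) := by gcongr
              _ = _ := by ring
          · simp
        refine (Finset.sum_le_sum h5).trans ?_
        rw [← Finset.mul_sum]
        have h6 := MV59.L38.cheb k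
        have h7 : (k : ℝ) ^ (2 - δ) = (k : ℝ) ^ (1 - δ) * k := by
          rw [← Real.rpow_add_one hk0.ne']
          congr 1
          ring
        rw [h7]
        have h8 : 0 ≤ 2 * d * (k : ℝ) ^ (1 - δ) := by positivity
        nlinarith
      have h9 : 0 ≤ ∑ m ∈ Finset.Icc 1 k, β m * (m : ℝ) ^ 2 :=
        Finset.sum_nonneg fun m _ => mul_nonneg (hβ0 m) (by positivity)
      have h10 : (k : ℝ) ^ (-1 - 2 * δ) = ((k : ℝ) ^ (2 - δ)) ^ 2 / (k : ℝ) ^ 5 := by
        rw [← Real.rpow_natCast ((k : ℝ) ^ (2 - δ)), ← Real.rpow_mul hk0.le, ← Real.rpow_natCast (k : ℝ) 5,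
          ← Real.rpow_sub hk0]
        congr 1
        push_cast
        ring
      rw [h10]
      calc (∑ m ∈ Finset.Icc 1 k, β m * (m : ℝ) ^ 2) ^ 2 / (k : ℝ) ^ 5
          ≤ (4 * d * (k : ℝ) ^ (2 - δ)) ^ 2 / (k : ℝ) ^ 5 := by gcongr
        _ = _ := by ring
    have h4 : ∑ k ∈ Finset.Icc 1 (2 * N), (∑ m ∈ Finset.Icc 1 k, β m * (m : ℝ) ^ 2) ^ 2 / (k : ℝ) ^ 5 ≤
        16 * d ^ 2 * (2 / δ) := by
      refine (Finset.sum_le_sum h3).trans ?_
      rw [← Finset.mul_sum]
      refine mul_le_mul_of_nonneg_left ?_ (by positivity)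
      refine (MV59.L38.zeta_sum (s := 2 * δ) (by linarith) (2 * N)).trans ?_
      have h5 : 1 ≤ 1 / δ := by rw [le_div_iff₀ hδ]; linarith
      have h6 : 1 / (2 * δ) = 1 / 2 * (1 / δ) := by field_simp
      have h7 : 2 / δ = 2 * (1 / δ) := by ring
      rw [h6, h7]
      linarith
    calc 4 * ∑ m ∈ Finset.range N, ∑ n ∈ Finset.range N,
        ‖b m‖ * ‖b n‖ * Real.exp (-(Real.log m - Real.log n) ^ 2 / 2)
        ≤ 4 * (256 * (16 * d ^ 2 * (2 / δ))) := by
          refine mul_le_mul_of_nonneg_left (h1.trans (h2.trans ?_)) (by norm_num)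
          exact mul_le_mul_of_nonneg_left h4 (by norm_num)
      _ = 32768 * d ^ 2 / δ := by ring
  -- the limit
  have hlim : Tendsto (fun N : ℕ => ∫ t in x..(x + 1), ‖∑ n ∈ Finset.range N,
      b n * Complex.exp (((-(t * Real.log n) : ℝ) : ℂ) * Complex.I)‖ ^ 2) atTop
      (𝓝 (∫ t in x..(x + 1), ‖deriv (LSeries f) (((1 + δ : ℝ) : ℂ) + t * Complex.I)‖ ^ 2)) := by
    refine intervalIntegral.tendsto_integral_filter_of_dominated_convergence
      (fun _ => (∑' n, ‖b n‖) ^ 2) (Eventually.of_forall fun N => ?_)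
      (Eventually.of_forall fun N => Eventually.of_forall fun t _ => ?_) ?_
      (Eventually.of_forall fun t _ => ?_)
    · refine Continuous.aestronglyMeasurable ?_
      fun_prop
    · rw [Real.norm_eq_abs, abs_of_nonneg (by positivity)]
      refine pow_le_pow_left₀ (norm_nonneg _) ?_ 2
      refine (norm_sum_le _ _).trans ?_
      refine le_trans (Finset.sum_le_sum fun n _ => ?_) (hsn.sum_le_tsum (Finset.range N)
        fun n _ => norm_nonneg _)
      rw [norm_mul, Complex.norm_exp_ofReal_mul_I, mul_one]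
    · exact intervalIntegrable_const
    · have h1 := ((hderiv t).tendsto_sum_nat).norm.pow 2
      rw [norm_neg] at h1
      exact h1
  exact le_of_tendsto hlim (Eventually.of_forall hpart)

end Pool.Agent.Lib.MP_bf61d2_nt.MV59U
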