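import Mathlib
import Pool.Agent.Lib.MP_bf61d2_nt.Trim.MV59U.BaseU
import Pool.Agent.Lib.MP_bf61d2_nt.Trim.MV59U.StmtsU

set_option autoImplicit false

/-!
Mean values of the coefficients `a_n` of `L(E/K, s)`: one scale controls all larger scales.
-/

namespace NumberField
end NumberField

namespace Pool.Agent.Lib.MP_bf61d2_nt.Hardy
end Pool.Agent.Lib.MP_bf61d2_nt.Hardy

namespace Pool.Agent.Lib.MP_bf61d2_nt.MV59
end Pool.Agent.Lib.MP_bf61d2_nt.MV59

namespace Pool.Agent.Lib.MP_bf61d2_nt.MV59U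

open MeasureTheory Set Filter Topology NumberField IsDedekindDomain Hardy MV59

/-- (PH). -/
theorem phu (N : ℕ) (θ C₁ : ℝ) : StPHU N θ C₁ := by
  set C₀ : ℝ := |C₁| with hC₀
  have hC₀0 : 0 ≤ C₀ := abs_nonneg _
  refine ⟨2 * (1 + C₀), fun b c hg δ₀ hδ₀ hδ₀1 G hG hL δ t hδ hδ1 ht => ?_⟩
  set s₀ : ℂ := ((3 / 2 + δ₀ : ℝ) : ℂ) + t * Complex.I with hs₀
  set f : ℂ → ℂ := fun z => LSeries b (s₀ + z) * (1 + z)⁻¹ with hf
  have hre : ∀ z : ℂ, (s₀ + z).re = 3 / 2 + δ₀ + z.re := by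
    intro z; simp [hs₀]
  have hne : ∀ z : ℂ, 0 ≤ z.re → (1 : ℝ) ≤ ‖1 + z‖ := by
    intro z hz
    refine le_trans ?_ (Complex.abs_re_le_norm _)
    rw [Complex.add_re, Complex.one_re, abs_of_nonneg (by linarith)]
    linarith
  have hbd : ∀ z : ℂ, 0 ≤ z.re → ‖LSeries b (s₀ + z)‖ ≤ C₀ * δ₀ ^ (-(2 * N : ℝ)) := by
    intro z hz
    exact hg.poly hδ₀ hδ₀1 (by rw [hre]; linarith)
  have hfb : ∀ z : ℂ, 0 ≤ z.re → ‖f z‖ ≤ C₀ * δ₀ ^ (-(2 * N : ℝ)) := by
    intro z hz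
    rw [hf]
    simp only
    rw [norm_mul, norm_inv]
    have h1 := hne z hz
    calc ‖LSeries b (s₀ + z)‖ * ‖1 + z‖⁻¹ ≤ ‖LSeries b (s₀ + z)‖ * 1 := by
          gcongr
          exact inv_le_one_of_one_le₀ h1
      _ ≤ _ := by rw [mul_one]; exact hbd z hz
  have hdL : ∀ z : ℂ, 0 ≤ z.re → DifferentiableAt ℂ (fun z => LSeries b (s₀ + z)) z := by
    intro z hz
    have h1 : LSeries.abscissaOfAbsConv b < (s₀ + z).re :=
      hg.abscissa_lt (by rw [hre]; linarith)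
    have h2 : DifferentiableAt ℂ (LSeries b) (s₀ + z) :=
      (LSeries_hasDerivAt h1).differentiableAt
    exact h2.comp z (by fun_prop)
  have hd : DiffContOnCl ℂ f {z | 0 < z.re} := by
    apply DifferentiableOn.diffContOnCl
    rw [Complex.closure_setOfPred_lt_re]
    intro z hz
    refine DifferentiableAt.differentiableWithinAt ?_
    refine (hdL z hz).mul (DifferentiableAt.inv (by fun_prop) ?_)
    intro h0
    have := hne z hz
    rw [h0, norm_zero] at this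
    linarith
  have hexp : ∃ c < (2 : ℝ), ∃ B : ℝ,
      f =O[Bornology.cobounded ℂ ⊓ 𝓟 {z | 0 < z.re}] fun z => Real.exp (B * ‖z‖ ^ c) := by
    refine ⟨0, by norm_num, 0, ?_⟩
    rw [Asymptotics.isBigO_iff]
    refine ⟨C₀ * δ₀ ^ (-(2 * N : ℝ)), ?_⟩
    rw [eventually_inf_principal]
    refine Eventually.of_forall fun z hz => ?_
    have h1 := hfb z (le_of_lt hz)
    simpa using h1
  have hreal : IsBoundedUnder (· ≤ ·) atTop fun x : ℝ => ‖f x‖ := by
    refine isBoundedUnder_of_eventually_le (a := C₀ * δ₀ ^ (-(2 * N : ℝ))) ?_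
    filter_upwards [eventually_ge_atTop (0 : ℝ)] with x hx
    exact hfb x (by simpa using hx)
  have him : ∀ x : ℝ, ‖f (x * Complex.I)‖ ≤ (1 + C₀) * G := by
    intro x
    have e1 : s₀ + x * Complex.I = ((3 / 2 + δ₀ : ℝ) : ℂ) + ((t + x : ℝ) : ℂ) * Complex.I := by
      rw [hs₀]; push_cast; ring
    rcases le_or_gt |x| (δ₀ ^ (-(5 * N : ℝ))) with hx | hx
    · have h1 : ‖LSeries b (s₀ + x * Complex.I)‖ ≤ G := by
        rw [e1]
        refine hL (t + x) ?_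
        exact (abs_add_le _ _).trans (by linarith)
      have h2 := hne (x * Complex.I) (by simp)
      rw [hf]
      simp only
      rw [norm_mul, norm_inv]
      calc ‖LSeries b (s₀ + x * Complex.I)‖ * ‖1 + x * Complex.I‖⁻¹
          ≤ G * 1 := by
            gcongr
            exact inv_le_one_of_one_le₀ h2
        _ ≤ (1 + C₀) * G := by nlinarith
    · have h0 : (0 : ℝ) < δ₀ ^ (-(5 * N : ℝ)) := Real.rpow_pos_of_pos hδ₀ _
      have h2 : |x| ≤ ‖1 + x * Complex.I‖ := by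
        have := Complex.abs_im_le_norm (1 + x * Complex.I)
        simpa using this
      have h1 := hbd (x * Complex.I) (by simp)
      rw [hf]
      simp only
      rw [norm_mul, norm_inv]
      have e2 : δ₀ ^ (-(2 * N : ℝ)) * (δ₀ ^ (-(5 * N : ℝ)))⁻¹ = δ₀ ^ (3 * N : ℝ) := by
        rw [← Real.rpow_neg hδ₀.le, ← Real.rpow_add hδ₀]
        congr 1
        ring
      have e3 : δ₀ ^ (3 * N : ℝ) ≤ 1 := Real.rpow_le_one hδ₀.le hδ₀1 (by positivity)
      calc ‖LSeries b (s₀ + x * Complex.I)‖ * ‖1 + x * Complex.I‖⁻¹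
          ≤ C₀ * δ₀ ^ (-(2 * N : ℝ)) * (δ₀ ^ (-(5 * N : ℝ)))⁻¹ := by
            gcongr
            exact hx.le.trans h2
        _ = C₀ * δ₀ ^ (3 * N : ℝ) := by rw [mul_assoc, e2]
        _ ≤ C₀ * 1 := by gcongr
        _ ≤ (1 + C₀) * G := by nlinarith
  have hmain := PhragmenLindelof.right_half_plane_of_bounded_on_real (z := ((δ - δ₀ : ℝ) : ℂ))
    hd hexp hreal him (by simp only [Complex.ofReal_re]; linarith)
  have e4 : s₀ + ((δ - δ₀ : ℝ) : ℂ) = ((3 / 2 + δ : ℝ) : ℂ) + t * Complex.I := by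
    rw [hs₀]; push_cast; ring
  rw [hf] at hmain
  simp only at hmain
  rw [e4, norm_mul, norm_inv] at hmain
  have e5 : ‖1 + ((δ - δ₀ : ℝ) : ℂ)‖ = 1 + (δ - δ₀) := by
    rw [← Complex.ofReal_one, ← Complex.ofReal_add, Complex.norm_real, Real.norm_of_nonneg]
    linarith
  rw [e5] at hmain
  have h6 : 0 < 1 + (δ - δ₀) := by linarith
  have h7 : ‖LSeries b (((3 / 2 + δ : ℝ) : ℂ) + t * Complex.I)‖ ≤
      (1 + C₀) * G * (1 + (δ - δ₀)) := by
    rw [← div_eq_mul_inv, div_le_iff₀ h6] at hmain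
    exact hmain
  refine h7.trans ?_
  have h8 : 0 ≤ (1 + C₀) * G := by positivity
  nlinarith

end Pool.Agent.Lib.MP_bf61d2_nt.MV59U
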