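import Mathlib
import Pool.Agent.Lib.MP_bf61d2_nt.Trim.Hardy.LogL
import Pool.Agent.Lib.MP_bf61d2_nt.Trim.MV59.Base59
import Pool.Agent.Lib.MP_bf61d2_nt.Trim.MV59.Hardy59
import Pool.Agent.Lib.MP_bf61d2_nt.Trim.MV59.PL59
import Pool.Agent.Lib.MP_bf61d2_nt.Trim.MV59.SQ59
import Pool.Agent.Lib.MP_bf61d2_nt.Trim.MV59.Stmts
import Pool.Agent.Lib.MP_bf61d2_nt.Trim.MV59U.BaseU
import Pool.Agent.Lib.MP_bf61d2_nt.Trim.MV59U.StmtsU

set_option autoImplicit false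

/-!
Mean values of the coefficients `a_n` of `L(E/K, s)`: the weighted mean square.
-/

namespace NumberField
end NumberField

namespace Pool.Agent.Lib.MP_bf61d2_nt.Hardy
end Pool.Agent.Lib.MP_bf61d2_nt.Hardy

namespace Pool.Agent.Lib.MP_bf61d2_nt.MV59
end Pool.Agent.Lib.MP_bf61d2_nt.MV59

namespace Pool.Agent.Lib.MP_bf61d2_nt.MV59U

open MeasureTheory Set Filter Topology NumberField IsDedekindDomain Hardy MV59

section

variable {N : ℕ}

lemma bound_wY {b : ℕ → ℂ} {C₀ δ G : ℝ}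
    (hC₀ : ∀ t : ℝ, ‖LSeries b (((3 / 2 + δ : ℝ) : ℂ) + t * Complex.I)‖ ≤ C₀ * δ ^ (-(2 * N : ℝ)))
    (hδ : 0 < δ)
    (hL : ∀ t : ℝ, |t| ≤ δ ^ (-(5 * N : ℝ)) →
      ‖LSeries b (((3 / 2 + δ : ℝ) : ℂ) + t * Complex.I)‖ ≤ G) (t : ℝ) :
    ‖LSeries b (((3 / 2 + δ : ℝ) : ℂ) + t * Complex.I)‖ ^ 2 / ((3 / 2 + δ) ^ 2 + t ^ 2) ≤
      2 * (G ^ 2 + C₀ ^ 2) * ww t := by
  set R : ℝ := ‖LSeries b (((3 / 2 + δ : ℝ) : ℂ) + t * Complex.I)‖ with hR
  have ht0 : (0 : ℝ) < 1 + |t| := by positivity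
  have h1 : R ^ 2 ≤ (G ^ 2 + C₀ ^ 2) * (1 + |t|) ^ (4 / 5 : ℝ) := by
    have hp : (1 : ℝ) ≤ (1 + |t|) ^ (4 / 5 : ℝ) :=
      Real.one_le_rpow (by linarith [abs_nonneg t]) (by norm_num)
    rcases le_or_gt |t| (δ ^ (-(5 * N : ℝ))) with h | h
    · have h2 : R ^ 2 ≤ G ^ 2 := pow_le_pow_left₀ (norm_nonneg _) (hL t h) 2
      have h3 : (0 : ℝ) ≤ C₀ ^ 2 := by positivity
      have h4 : (0 : ℝ) ≤ G ^ 2 := by positivity
      nlinarith
    · have h2 : R ^ 2 ≤ (C₀ * δ ^ (-(2 * N : ℝ))) ^ 2 := pow_le_pow_left₀ (norm_nonneg _) (hC₀ t) 2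
      have e1 : (δ ^ (-(2 * N : ℝ))) ^ 2 = (δ ^ (-(5 * N : ℝ))) ^ (4 / 5 : ℝ) := by
        rw [← Real.rpow_natCast, ← Real.rpow_mul hδ.le, ← Real.rpow_mul hδ.le]
        congr 1
        push_cast
        ring
      have h5 : (δ ^ (-(5 * N : ℝ))) ^ (4 / 5 : ℝ) ≤ (1 + |t|) ^ (4 / 5 : ℝ) :=
        Real.rpow_le_rpow (by positivity) (by linarith) (by norm_num)
      rw [mul_pow, e1] at h2
      have h3 : (0 : ℝ) ≤ C₀ ^ 2 := by positivity
      have h4 : (0 : ℝ) ≤ G ^ 2 * (1 + |t|) ^ (4 / 5 : ℝ) := by positivity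
      calc R ^ 2 ≤ C₀ ^ 2 * (δ ^ (-(5 * N : ℝ))) ^ (4 / 5 : ℝ) := h2
        _ ≤ C₀ ^ 2 * (1 + |t|) ^ (4 / 5 : ℝ) := by gcongr
        _ ≤ _ := by linarith
  have h2 : (1 + |t|) ^ 2 / 2 ≤ (3 / 2 + δ) ^ 2 + t ^ 2 := by
    have := sq_abs t
    nlinarith [sq_nonneg (1 - |t|), abs_nonneg t]
  have h3 : (0 : ℝ) < (1 + |t|) ^ 2 / 2 := by positivity
  calc R ^ 2 / ((3 / 2 + δ) ^ 2 + t ^ 2)
      ≤ ((G ^ 2 + C₀ ^ 2) * (1 + |t|) ^ (4 / 5 : ℝ)) / ((1 + |t|) ^ 2 / 2) := by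
        gcongr
    _ = 2 * (G ^ 2 + C₀ ^ 2) * ww t := by
        rw [ww, Real.norm_eq_abs]
        have e2 : (1 + |t|) ^ (-(6 / 5) : ℝ) = (1 + |t|) ^ (4 / 5 : ℝ) / (1 + |t|) ^ 2 := by
          rw [← Real.rpow_natCast, ← Real.rpow_sub ht0]
          norm_num
        rw [e2]
        field_simp

lemma lint_DU {c Λ₂ : ℕ → ℂ} (hcl : ∀ n, ‖c n‖ ≤ 2 * (N : ℝ)) (hz : ∀ n, ¬ n.Prime → c n = 0)
    {θ : ℝ} (h0 : Λ₂ 0 = 0) (hθ : 0 ≤ θ)
    (hs : Summable (fun k : ℕ => ‖Λ₂ k‖ * (k : ℝ) ^ (-(3 / 2) + θ))) {C₁ C₂ δ : ℝ} (hδ : 0 < δ)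
    (h1 : ∀ x : ℝ, ∫ t in x..(x + 1), ‖deriv (LSeries c)
      (((1 + δ : ℝ) : ℂ) + t * Complex.I)‖ ^ 2 ≤ C₁ / δ)
    (h2 : ∀ s : ℂ, 3 / 2 < s.re → ‖LSeries Λ₂ s‖ ≤ C₂) :
    ∫⁻ t, ENNReal.ofReal (‖DU c Λ₂ δ t‖ ^ 2) * ENNReal.ofReal (ww t) ≤
      4 * (∫⁻ u, ENNReal.ofReal (ww u)) * ENNReal.ofReal (2 * (C₁ / δ) + 2 * C₂ ^ 2) := by
  refine lint_local ?_ fun x => ?_
  · exact ((continuous_DU hcl hz h0 hθ hs hδ).norm.pow 2).measurable.ennreal_ofReal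
  have hc : Continuous fun t : ℝ => ‖DU c Λ₂ δ t‖ ^ 2 := (continuous_DU hcl hz h0 hθ hs hδ).norm.pow 2
  have hc1 : Continuous fun t : ℝ => ‖deriv (LSeries c)
      (((1 + δ : ℝ) : ℂ) + t * Complex.I)‖ ^ 2 := (continuous_dc hcl hz hδ).norm.pow 2
  have hx : x ≤ x + 1 := by linarith
  rw [← ofReal_integral_eq_lintegral_ofReal
    ((intervalIntegrable_iff_integrableOn_Ioc_of_le hx).mp (hc.intervalIntegrable _ _))
    (Eventually.of_forall fun t => by positivity), ← intervalIntegral.integral_of_le hx]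
  refine ENNReal.ofReal_le_ofReal ?_
  have h3 : ∫ t in x..(x + 1), ‖DU c Λ₂ δ t‖ ^ 2 ≤ ∫ t in x..(x + 1),
      (2 * ‖deriv (LSeries c) (((1 + δ : ℝ) : ℂ) + t * Complex.I)‖ ^ 2 +
        2 * C₂ ^ 2) := by
    refine intervalIntegral.integral_mono hx (hc.intervalIntegrable _ _)
      (((hc1.const_mul 2).add continuous_const).intervalIntegrable _ _) fun t => ?_
    simp only
    have h4 : ‖DU c Λ₂ δ t‖ ≤ ‖deriv (LSeries c)
        (((1 + δ : ℝ) : ℂ) + t * Complex.I)‖ + C₂ :=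
      (norm_add_le _ _).trans (by
        have := h2 _ (line_mem hδ t)
        rw [norm_neg]
        gcongr)
    exact (pow_le_pow_left₀ (norm_nonneg _) h4 2).trans (add_sq_le2 _ _)
  refine h3.trans ?_
  rw [intervalIntegral.integral_add ((hc1.const_mul 2).intervalIntegrable _ _)
    (continuous_const.intervalIntegrable _ _), intervalIntegral.integral_const_mul,
    intervalIntegral.integral_const, add_sub_cancel_left, one_smul]
  have := h1 x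
  linarith

end

/-- (SQ). -/
theorem squ (N : ℕ) (h2 : StL2U N) {θ C₂ : ℝ} (hθ : 0 ≤ θ) :
    StSQU N θ C₂ := by
  obtain ⟨C₁, hC₁⟩ := h2
  set C₀ : ℝ := |C₂| with hC₀
  have hC₀0 : 0 ≤ C₀ := abs_nonneg _
  set Iw : ℝ := ∫ u, ww u with hIw
  have hIw0 : 0 ≤ Iw := integral_nonneg fun u => (ww_pos u).le
  have hIwl : ∫⁻ u, ENNReal.ofReal (ww u) = ENNReal.ofReal Iw :=
    (ofReal_integral_eq_lintegral_ofReal integrable_ww
      (Eventually.of_forall fun u => (ww_pos u).le)).symm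
  refine ⟨(1 + C₀ ^ 2) * Iw * (32 * |C₁| + 32 * C₂ ^ 2 + 4), fun a c hg δ hδ hδ1 G hG hL => ?_⟩
  obtain ⟨Λ₂, h0, hs, hsC, hconv⟩ := hg.cv
  have hc' := hg.cle
  have hz := hg.cz
  set κ : ℝ := 3 / 2 + δ with hκ
  have ha0 : a 0 = 0 := hg.b0
  have hGC : 0 ≤ G ^ 2 + C₀ ^ 2 := by positivity
  set M : ℝ := 2 * (|C₁| / δ) + 2 * C₂ ^ 2 with hM
  have hM0 : 0 ≤ M := by positivity
  have hbw := bound_wY (fun t => hg.poly hδ hδ1 (by simp)) hδ hL
  -- Plancherel for `a`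
  have habs := hg.abscissa
  have hs1 : LSeriesSummable a ((3 / 2 + δ / 2 : ℝ) : ℂ) := by
    refine hg.summable (s := ((3 / 2 + δ / 2 : ℝ) : ℂ)) ?_
    simp only [Complex.ofReal_re]
    linarith
  have hs2 : LSeriesSummable (LSeries.logMul a) ((3 / 2 + δ / 2 : ℝ) : ℂ) := by
    refine LSeriesSummable_logMul_of_lt_re (lt_of_le_of_lt habs ?_)
    simp only [Complex.ofReal_re]
    have : (3 / 2 : ℝ) < 3 / 2 + δ / 2 := by linarith
    exact_mod_cast this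
  obtain ⟨hA1, hA2, hA3⟩ := pl a κ (3 / 2 + δ / 2) (by positivity) (by rw [hκ]; linarith) hs1
  obtain ⟨hB1, hB2, hB3⟩ := pl (LSeries.logMul a) κ (3 / 2 + δ / 2) (by positivity)
    (by rw [hκ]; linarith) hs2
  have eexp : ∀ u : ℝ, u ^ (-(2 * κ + 1)) = u ^ (-(4 + 2 * δ)) := by
    intro u
    congr 1
    rw [hκ]; ring
  simp_rw [eexp] at hA1 hA3 hB1 hB3
  have hpi : (2 * Real.pi)⁻¹ ≤ 1 := by
    rw [inv_le_one₀ (by positivity)]
    linarith [Real.pi_gt_three]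
  have hpi0 : 0 < (2 * Real.pi)⁻¹ := by positivity
  -- bound of the A integral
  set XA : ℝ := 2 * (G ^ 2 + C₀ ^ 2) * Iw with hXA
  have hAi : ∫ u in Ioi (1 : ℝ), ‖AA a u‖ ^ 2 * u ^ (-(4 + 2 * δ)) ≤ XA := by
    rw [hA3]
    have h3 : ∫ t : ℝ, ‖LSeries a (κ + t * Complex.I)‖ ^ 2 / (κ ^ 2 + t ^ 2) ≤ XA := by
      rw [hXA, hIw, ← integral_const_mul]
      exact integral_mono hA2 (integrable_ww.const_mul _) fun t => hbw t
    have h4 : 0 ≤ ∫ t : ℝ, ‖LSeries a (κ + t * Complex.I)‖ ^ 2 / (κ ^ 2 + t ^ 2) :=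
      integral_nonneg fun t => by positivity
    nlinarith
  -- bound of the B integral
  set XB : ℝ := 2 * (G ^ 2 + C₀ ^ 2) * (4 * Iw * M) with hXB
  have hXB0 : 0 ≤ XB := by positivity
  have hBi : ∫ u in Ioi (1 : ℝ), ‖AA (LSeries.logMul a) u‖ ^ 2 * u ^ (-(4 + 2 * δ)) ≤ XB := by
    rw [hB3]
    have h3 : ∫ t : ℝ, ‖LSeries (LSeries.logMul a) (κ + t * Complex.I)‖ ^ 2 / (κ ^ 2 + t ^ 2)
        ≤ XB := by
      rw [integral_eq_lintegral_of_nonneg_ae (Eventually.of_forall fun t => by positivity)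
        hB2.aestronglyMeasurable]
      refine ENNReal.toReal_le_of_le_ofReal hXB0 ?_
      calc ∫⁻ t : ℝ, ENNReal.ofReal
            (‖LSeries (LSeries.logMul a) (κ + t * Complex.I)‖ ^ 2 / (κ ^ 2 + t ^ 2))
          ≤ ∫⁻ t : ℝ, ENNReal.ofReal (2 * (G ^ 2 + C₀ ^ 2)) *
              (ENNReal.ofReal (‖DU c Λ₂ δ t‖ ^ 2) * ENNReal.ofReal (ww t)) := by
            refine lintegral_mono fun t => ?_
            rw [← ENNReal.ofReal_mul (by positivity), ← ENNReal.ofReal_mul (by positivity)]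
            refine ENNReal.ofReal_le_ofReal ?_
            rw [LSeries_logMulU hg h0 hθ hs hconv hδ t, norm_mul, mul_pow]
            have h5 := hbw t
            have h6 : (0 : ℝ) ≤ ‖DU c Λ₂ δ t‖ ^ 2 := by positivity
            calc ‖LSeries a (((3 / 2 + δ : ℝ) : ℂ) + t * Complex.I)‖ ^ 2 * ‖DU c Λ₂ δ t‖ ^ 2 /
                  (κ ^ 2 + t ^ 2)
                = ‖LSeries a (((3 / 2 + δ : ℝ) : ℂ) + t * Complex.I)‖ ^ 2 /
                    ((3 / 2 + δ) ^ 2 + t ^ 2) * ‖DU c Λ₂ δ t‖ ^ 2 := by rw [hκ]; ring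
              _ ≤ 2 * (G ^ 2 + C₀ ^ 2) * ww t * ‖DU c Λ₂ δ t‖ ^ 2 := by gcongr
              _ = _ := by ring
        _ = ENNReal.ofReal (2 * (G ^ 2 + C₀ ^ 2)) * ∫⁻ t : ℝ,
              (ENNReal.ofReal (‖DU c Λ₂ δ t‖ ^ 2) * ENNReal.ofReal (ww t)) := by
            refine lintegral_const_mul _ ?_
            exact ((continuous_DU hc' hz h0 hθ hs hδ).norm.pow 2).measurable.ennreal_ofReal.mul
              continuous_ww.measurable.ennreal_ofReal
        _ ≤ ENNReal.ofReal (2 * (G ^ 2 + C₀ ^ 2)) *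
              (4 * (∫⁻ u, ENNReal.ofReal (ww u)) * ENNReal.ofReal M) := by
            gcongr
            refine lint_DU hc' hz h0 hθ hs hδ (fun x => ?_)
              (fun s hs' => norm_lam_le h0 hθ hs hsC hs')
            refine (hC₁ c hc' hz δ hδ hδ1 x).trans ?_
            gcongr
            exact le_abs_self _
        _ = ENNReal.ofReal XB := by
            have e4 : (4 : ENNReal) = ENNReal.ofReal 4 := by norm_num
            rw [hIwl, e4, ← ENNReal.ofReal_mul (by norm_num), ← ENNReal.ofReal_mul (by positivity),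
              ← ENNReal.ofReal_mul (by positivity)]
    have h4 : 0 ≤ ∫ t : ℝ, ‖LSeries (LSeries.logMul a) (κ + t * Complex.I)‖ ^ 2 /
        (κ ^ 2 + t ^ 2) := integral_nonneg fun t => by positivity
    nlinarith
  -- the lintegral of the target
  have hrm : Measurable fun u : ℝ => u ^ (-(4 + 2 * δ)) := measurable_id.pow_const _
  have key : ∫⁻ u in Ioi (1 : ℝ), ENNReal.ofReal (‖AA a u‖ ^ 2 * Real.log u ^ 2 *
      u ^ (-(4 + 2 * δ))) ≤ ENNReal.ofReal (2 * XB + 2 * XA) := by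
    have hB4 : ∫⁻ u in Ioi (1 : ℝ), ENNReal.ofReal
        (‖AA (LSeries.logMul a) u‖ ^ 2 * u ^ (-(4 + 2 * δ))) ≤ ENNReal.ofReal XB := by
      rw [← ofReal_integral_eq_lintegral_ofReal hB1
        ((ae_restrict_iff' measurableSet_Ioi).mpr (Eventually.of_forall fun u hu => by
          have : (0 : ℝ) < u := lt_trans one_pos hu
          positivity))]
      exact ENNReal.ofReal_le_ofReal hBi
    have hA4 : ∫⁻ u in Ioi (1 : ℝ), ENNReal.ofReal
        (‖AA a u‖ ^ 2 * u ^ (-(4 + 2 * δ))) ≤ ENNReal.ofReal XA := by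
      rw [← ofReal_integral_eq_lintegral_ofReal hA1
        ((ae_restrict_iff' measurableSet_Ioi).mpr (Eventually.of_forall fun u hu => by
          have : (0 : ℝ) < u := lt_trans one_pos hu
          positivity))]
      exact ENNReal.ofReal_le_ofReal hAi
    have hH4 := (hardy_ineq a hδ).trans hA4
    calc ∫⁻ u in Ioi (1 : ℝ), ENNReal.ofReal (‖AA a u‖ ^ 2 * Real.log u ^ 2 *
          u ^ (-(4 + 2 * δ)))
        ≤ ∫⁻ u in Ioi (1 : ℝ), (2 * ENNReal.ofReal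
            (‖AA (LSeries.logMul a) u‖ ^ 2 * u ^ (-(4 + 2 * δ))) + 2 * ENNReal.ofReal
            (‖HH a u‖ ^ 2 * u ^ (-(4 + 2 * δ)))) := by
          refine setLIntegral_mono_ae' measurableSet_Ioi (Eventually.of_forall fun u hu => ?_)
          have hu0 : (0 : ℝ) < u := lt_trans one_pos hu
          have hp : (0 : ℝ) < u ^ (-(4 + 2 * δ)) := Real.rpow_pos_of_pos hu0 _
          have e5 : (2 : ENNReal) = ENNReal.ofReal 2 := by norm_num
          rw [e5, ← ENNReal.ofReal_mul (by norm_num), ← ENNReal.ofReal_mul (by norm_num),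
            ← ENNReal.ofReal_add (by positivity) (by positivity)]
          refine ENNReal.ofReal_le_ofReal ?_
          have h6 := AA_log ha0 u
          have h7 : ‖AA a u‖ ^ 2 * Real.log u ^ 2 ≤ 2 * ‖AA (LSeries.logMul a) u‖ ^ 2 +
              2 * ‖HH a u‖ ^ 2 := by
            have h8 : ‖AA a u * Real.log u‖ ≤ ‖AA (LSeries.logMul a) u‖ + ‖HH a u‖ := by
              rw [h6]; exact norm_add_le _ _
            have h9 := pow_le_pow_left₀ (norm_nonneg _) h8 2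
            rw [norm_mul, mul_pow, Complex.norm_real, Real.norm_eq_abs, sq_abs] at h9
            exact h9.trans (add_sq_le2 _ _)
          calc ‖AA a u‖ ^ 2 * Real.log u ^ 2 * u ^ (-(4 + 2 * δ))
              ≤ (2 * ‖AA (LSeries.logMul a) u‖ ^ 2 + 2 * ‖HH a u‖ ^ 2) * u ^ (-(4 + 2 * δ)) := by
                gcongr
            _ = _ := by ring
      _ = (2 * ∫⁻ u in Ioi (1 : ℝ), ENNReal.ofReal
            (‖AA (LSeries.logMul a) u‖ ^ 2 * u ^ (-(4 + 2 * δ)))) + ∫⁻ u in Ioi (1 : ℝ),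
            2 * ENNReal.ofReal (‖HH a u‖ ^ 2 * u ^ (-(4 + 2 * δ))) := by
          have hm1 : Measurable fun u : ℝ => ENNReal.ofReal
              (‖AA (LSeries.logMul a) u‖ ^ 2 * u ^ (-(4 + 2 * δ))) :=
            (((measurable_AA _).norm.pow_const 2).mul hrm).ennreal_ofReal
          rw [lintegral_add_left (hm1.const_mul 2), lintegral_const_mul _ hm1]
      _ ≤ 2 * ENNReal.ofReal XB + 2 * ENNReal.ofReal XA := by
          have h9 : ∫⁻ u in Ioi (1 : ℝ), 2 * ENNReal.ofReal (‖HH a u‖ ^ 2 * u ^ (-(4 + 2 * δ))) =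
              2 * ∫⁻ u in Ioi (1 : ℝ), ENNReal.ofReal (‖HH a u‖ ^ 2 * u ^ (-(4 + 2 * δ))) :=
            lintegral_const_mul' _ _ (by norm_num)
          rw [h9]
          gcongr
      _ = ENNReal.ofReal (2 * XB + 2 * XA) := by
          exact two_ofReal hXB0 (by positivity)
  have hmeas : Measurable fun u : ℝ => ‖AA a u‖ ^ 2 * Real.log u ^ 2 * u ^ (-(4 + 2 * δ)) :=
    (((measurable_AA _).norm.pow_const 2).mul (Real.measurable_log.pow_const 2)).mul hrm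
  have hint : IntegrableOn (fun u : ℝ => ‖AA a u‖ ^ 2 * Real.log u ^ 2 *
      u ^ (-(4 + 2 * δ))) (Ioi 1) := by
    refine ⟨hmeas.aestronglyMeasurable, ?_⟩
    rw [hasFiniteIntegral_iff_ofReal ((ae_restrict_iff' measurableSet_Ioi).mpr
      (Eventually.of_forall fun u hu => by
          have : (0 : ℝ) < u := lt_trans one_pos hu
          positivity))]
    exact lt_of_le_of_lt key ENNReal.ofReal_lt_top
  refine ⟨hint, ?_⟩
  rw [integral_eq_lintegral_of_nonneg_ae ((ae_restrict_iff' measurableSet_Ioi).mpr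
      (Eventually.of_forall fun u hu => by
          have : (0 : ℝ) < u := lt_trans one_pos hu
          positivity)) hmeas.aestronglyMeasurable]
  have h10 : (2 * XB + 2 * XA) ≤ (1 + C₀ ^ 2) * Iw * (32 * |C₁| + 32 * C₂ ^ 2 + 4) *
      (G ^ 2 + 1) / δ := by
    have h11 : G ^ 2 + C₀ ^ 2 ≤ (1 + C₀ ^ 2) * (G ^ 2 + 1) := by
      have h12 : 0 ≤ C₀ ^ 2 * G ^ 2 := by positivity
      nlinarith
    have h13 : 2 * XB + 2 * XA = (G ^ 2 + C₀ ^ 2) * Iw * (16 * M + 4) := by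
      rw [hXB, hXA]; ring
    have h14 : 16 * M + 4 ≤ (32 * |C₁| + 32 * C₂ ^ 2 + 4) / δ := by
      rw [le_div_iff₀ hδ, hM]
      have e6 : (16 * (2 * (|C₁| / δ) + 2 * C₂ ^ 2) + 4) * δ = 32 * |C₁| +
          (32 * C₂ ^ 2 + 4) * δ := by
        field_simp
        ring
      rw [e6]
      have h15 : 0 ≤ 32 * C₂ ^ 2 + 4 := by positivity
      nlinarith
    rw [h13]
    calc (G ^ 2 + C₀ ^ 2) * Iw * (16 * M + 4)
        ≤ ((1 + C₀ ^ 2) * (G ^ 2 + 1)) * Iw * ((32 * |C₁| + 32 * C₂ ^ 2 + 4) / δ) := by gcongr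
      _ = _ := by ring
  refine (ENNReal.toReal_le_of_le_ofReal (by positivity) key).trans h10

end Pool.Agent.Lib.MP_bf61d2_nt.MV59U
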