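import Mathlib
import Pool.Agent.Lib.MP_bf61d2_nt.Trim.Artin.R.DefsR
import Pool.Agent.Lib.MP_bf61d2_nt.Trim.MV59.Stmts
import Pool.Agent.Lib.MP_bf61d2_nt.Trim.MV59U.GoodU59
import Pool.Agent.Lib.MP_bf61d2_nt.Trim.MV59U.PWU
import Pool.Agent.Lib.MP_bf61d2_nt.Trim.MV59U.StmtsU
import Pool.Agent.Lib.MP_bf61d2_nt.Trim.MV59Y.CVY
import Pool.Agent.Lib.MP_bf61d2_nt.Trim.MV59Y.LFunY
import Pool.Agent.Lib.MP_bf61d2_nt.Trim.MV59Y.Tw59

set_option autoImplicit false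

/-!
Pointwise bound of the mean values for all functions on the primes, uniform in the number fields of
a given degree.
-/

namespace NumberField
end NumberField

namespace Pool.Agent.Lib.MP_bf61d2_nt.MV59
end Pool.Agent.Lib.MP_bf61d2_nt.MV59

namespace Pool.Agent.Lib.MP_bf61d2_nt.MV59Y
end Pool.Agent.Lib.MP_bf61d2_nt.MV59Y

namespace Pool.Agent.Lib.MP_bf61d2_nt.MV59U

open Filter Topology NumberField IsDedekindDomain ArithmeticFunction MV59 Module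

open MV59Y (LFun sh norm_sh LFun_sh LSeries_eq_LE LE_sh)

universe u

/-- Pointwise bound of the mean values with a constant that depends only on the degree. -/
theorem mean_leU (N : ℕ) : ∃ C : ℝ, 1 ≤ C ∧
    ∀ (K : Type u) [Field K] [NumberField K], finrank ℚ K = N →
    ∀ (W : WeierstrassCurve K) (ψ : HeightOneSpectrum (𝓞 K) → ℂ), (∀ v, ‖ψ v‖ ≤ 1) →
    ∀ τ x : ℝ, 3 ≤ x → ∀ G : ℝ, 1 ≤ G →
    (∀ t : ℝ, |t| ≤ 2 * Real.log x ^ (5 * N : ℝ) →
      ‖Artin.Ray.LE W ψ (((3 / 2 + 1 / Real.log x : ℝ) : ℂ) + (t + τ : ℝ) * Complex.I)‖ ≤ G) →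
    ‖∑ n ∈ Finset.Icc 1 ⌊x⌋₊, LFun W ψ n * (n : ℂ) ^ (-(τ : ℂ) * Complex.I)‖ ≤
      C * x ^ (3 / 2 : ℝ) * G * (1 + Real.log (Real.log x)) / Real.log x := by
  obtain ⟨C₀, hC₀⟩ := goodU.{u} N
  obtain ⟨C, hC⟩ := stPWU_all N (by norm_num : (0 : ℝ) < 1 / 64) C₀
  refine ⟨max C 1, le_max_right _ _, fun K _ _ hK W ψ hψ τ x hx G hG hb => ?_⟩
  have hψ' : ∀ v, ‖sh τ ψ v‖ ≤ 1 := fun v => by rw [norm_sh]; exact hψ v
  have hx0 : 0 < x := by linarith
  have hlx : 1 < Real.log x := by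
    rw [Real.lt_log_iff_exp_lt hx0]
    have := Real.exp_one_lt_d9
    linarith
  have h1 := hC _ _ (hC₀ K hK W (sh τ ψ) hψ') x hx G hG (fun t ht => by
    rw [LSeries_eq_LE W hψ' (by
      simp only [Complex.add_re, Complex.ofReal_re, Complex.mul_re, Complex.ofReal_im,
        Complex.I_re, Complex.I_im, mul_zero, zero_mul, sub_zero, add_zero]
      have : 0 < 1 / Real.log x := by positivity
      linarith), LE_sh]
    have h2 := hb t ht
    have e : (((3 / 2 + 1 / Real.log x : ℝ) : ℂ) + t * Complex.I) + τ * Complex.I =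
        ((3 / 2 + 1 / Real.log x : ℝ) : ℂ) + (t + τ : ℝ) * Complex.I := by
      push_cast
      ring
    rw [e]
    exact h2)
  have h3 : AA (fun n => LFun W (sh τ ψ) n) x =
      ∑ n ∈ Finset.Icc 1 ⌊x⌋₊, LFun W ψ n * (n : ℂ) ^ (-(τ : ℂ) * Complex.I) := by
    rw [AA]
    exact Finset.sum_congr rfl fun n _ => LFun_sh W ψ τ n
  rw [h3] at h1
  refine h1.trans ?_
  have hl : 0 ≤ Real.log (Real.log x) := Real.log_nonneg hlx.le
  have hL0 : 0 < Real.log x := by linarith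
  have hC1 : C ≤ max C 1 := le_max_left _ _
  have hp : 0 < x ^ (3 / 2 : ℝ) := Real.rpow_pos_of_pos hx0 _
  gcongr

end Pool.Agent.Lib.MP_bf61d2_nt.MV59U
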