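import Mathlib
import Pool.Agent.Lib.MP_bf61d2_nt.Trim.Artin.R.DefsR
import Pool.Agent.Lib.MP_bf61d2_nt.Trim.Artin.UK.LOGRU88
import Pool.Agent.Lib.MP_bf61d2_nt.Trim.MV59.Final59
import Pool.Agent.Lib.MP_bf61d2_nt.Trim.MV59U.MeanU59
import Pool.Agent.Lib.MP_bf61d2_nt.Trim.MV59Y.LFunY

set_option autoImplicit false

/-!
Counting the L-functions of a family with a large mean value at some point of a long range, when the
fields of definition have bounded degree.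
-/

namespace NumberField
end NumberField

namespace Pool.Agent.Lib.MP_bf61d2_nt.MV59
end Pool.Agent.Lib.MP_bf61d2_nt.MV59

namespace Pool.Agent.Lib.MP_bf61d2_nt.Artin
end Pool.Agent.Lib.MP_bf61d2_nt.Artin

namespace Pool.Agent.Lib.MP_bf61d2_nt.Artin.Ray
end Pool.Agent.Lib.MP_bf61d2_nt.Artin.Ray

namespace Pool.Agent.Lib.MP_bf61d2_nt.MV59Y
end Pool.Agent.Lib.MP_bf61d2_nt.MV59Y

namespace Pool.Agent.Lib.MP_bf61d2_nt.MV59U

open Filter Topology NumberField IsDedekindDomain ArithmeticFunction MV59 Artin Artin.Ray Module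

open MV59Y (LFun)

universe u

lemma exists_gapU {a b : ℝ} (ha : 0 < a) (hb : 0 < b) (C₂ : ℝ) {B C' m : ℝ} (hB : 0 ≤ B)
    (hC' : 0 < C') (hm : 0 < m) :
    ∃ κ : ℝ, 0 < κ ∧ κ ≤ m ∧ ∀ᶠ l : ℝ in atTop,
      a < Real.sqrt (⌊a ^ 2 / b ^ 2⌋₊ + 1 : ℕ) *
        (b - B * κ - (Real.log (C' * (1 + l)) + C₂) / l) := by
  set R : ℝ := a ^ 2 / b ^ 2 with hR
  set S : ℝ := Real.sqrt (⌊R⌋₊ + 1 : ℕ) with hS
  have hM : R < (⌊R⌋₊ + 1 : ℕ) := by
    push_cast
    exact Nat.lt_floor_add_one _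
  have hR' : R = (a / b) ^ 2 := by
    rw [hR, div_pow]
  have hS1 : a / b < S := by
    rw [hS]
    refine Real.lt_sqrt_of_sq_lt ?_
    rw [← hR']
    exact hM
  have hS0 : 0 < S := lt_trans (by positivity) hS1
  have hgap : 0 < S * b - a := by
    rw [div_lt_iff₀ hb] at hS1
    linarith
  set g : ℝ := S * b - a with hg
  refine ⟨min m (g / (4 * S * (B + 1))), lt_min hm (by positivity), min_le_left _ _, ?_⟩
  have h1 := (eventually_small C' C₂ hC').1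
  have h2 : ∀ᶠ l : ℝ in atTop, (Real.log (C' * (1 + l)) + C₂) / l < g / (4 * S) :=
    h1.eventually (gt_mem_nhds (by positivity))
  filter_upwards [h2] with l hl
  set κ : ℝ := min m (g / (4 * S * (B + 1))) with hκ
  have hκ0 : 0 < κ := lt_min hm (by positivity)
  have h3 : κ ≤ g / (4 * S * (B + 1)) := min_le_right _ _
  have h4 : S * (B * κ) ≤ g / 4 := by
    have e : S * ((B + 1) * (g / (4 * S * (B + 1)))) = g / 4 := by field_simp
    rw [← e]
    refine mul_le_mul_of_nonneg_left ?_ hS0.le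
    calc B * κ ≤ (B + 1) * κ := by nlinarith
      _ ≤ _ := mul_le_mul_of_nonneg_left h3 (by linarith)
  have h5 : S * (g / (4 * S)) = g / 4 := by field_simp
  have h7 : S * ((Real.log (C' * (1 + l)) + C₂) / l) < g / 4 :=
    (mul_lt_mul_of_pos_left hl hS0).trans_eq h5
  have e : S * (b - B * κ - (Real.log (C' * (1 + l)) + C₂) / l) =
      S * b - S * (B * κ) - S * ((Real.log (C' * (1 + l)) + C₂) / l) := by ring
  rw [e]
  linarith

/-- The end of the count. -/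
lemma real_end {a b θ : ℝ} (ha : 0 < a) (n : ℕ)
    (hg : a < Real.sqrt (⌊a ^ 2 / b ^ 2⌋₊ + 1 : ℕ) * θ) (hfin : (n : ℝ) * θ ≤ a * Real.sqrt n) :
    (n : ℝ) ≤ a ^ 2 / b ^ 2 := by
  set R : ℝ := a ^ 2 / b ^ 2 with hR
  have hSn : Real.sqrt n * Real.sqrt n = n := Real.mul_self_sqrt (Nat.cast_nonneg n)
  have hn : n ≤ ⌊R⌋₊ := by
    by_contra hcon
    rw [not_le] at hcon
    have h1 : Real.sqrt (⌊R⌋₊ + 1 : ℕ) ≤ Real.sqrt n :=
      Real.sqrt_le_sqrt (by exact_mod_cast hcon)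
    have hθ0 : 0 < θ := by
      by_contra hle
      rw [not_lt] at hle
      have h2 : 0 ≤ Real.sqrt (⌊R⌋₊ + 1 : ℕ) := Real.sqrt_nonneg _
      have h3 := mul_nonpos_of_nonneg_of_nonpos h2 hle
      linarith
    have hsp : 0 < Real.sqrt n := by
      refine Real.sqrt_pos.mpr ?_
      have : 0 < n := by omega
      exact_mod_cast this
    have h2 : a < Real.sqrt n * θ :=
      hg.trans_le (mul_le_mul_of_nonneg_right h1 hθ0.le)
    have h3 : Real.sqrt n * a < Real.sqrt n * (Real.sqrt n * θ) :=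
      mul_lt_mul_of_pos_left h2 hsp
    have h4 : Real.sqrt n * (Real.sqrt n * θ) = n * θ := by rw [← mul_assoc, hSn]
    linarith
  calc (n : ℝ) ≤ (⌊R⌋₊ : ℝ) := by exact_mod_cast hn
    _ ≤ _ := Nat.floor_le (by positivity)

/-- Pointwise bound of the mean values with a constant that depends only on a bound for the
degree. -/
theorem mean_leM (M : ℕ) : ∃ C : ℝ, 1 ≤ C ∧
    ∀ (K : Type u) [Field K] [NumberField K], finrank ℚ K ≤ M →
    ∀ (W : WeierstrassCurve K) (ψ : HeightOneSpectrum (𝓞 K) → ℂ), (∀ v, ‖ψ v‖ ≤ 1) →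
    ∀ τ x : ℝ, 3 ≤ x → ∀ G : ℝ, 1 ≤ G →
    (∀ t : ℝ, |t| ≤ 2 * Real.log x ^ (5 * M) →
      ‖Artin.Ray.LE W ψ (((3 / 2 + 1 / Real.log x : ℝ) : ℂ) + (t + τ : ℝ) * Complex.I)‖ ≤ G) →
    ‖∑ n ∈ Finset.Icc 1 ⌊x⌋₊, LFun W ψ n * (n : ℂ) ^ (-(τ : ℂ) * Complex.I)‖ ≤
      C * x ^ (3 / 2 : ℝ) * G * (1 + Real.log (Real.log x)) / Real.log x := by
  choose C hC1 hC using mean_leU.{u}
  have hle : ∀ N ∈ Finset.range (M + 1), C N ≤ ∑ i ∈ Finset.range (M + 1), C i := fun N hN =>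
    Finset.single_le_sum (f := C) (fun i _ => zero_le_one.trans (hC1 i)) hN
  refine ⟨∑ N ∈ Finset.range (M + 1), C N, (hC1 0).trans (hle 0 (by simp)),
    fun K _ _ hK W ψ hψ τ x hx G hG hb => ?_⟩
  have hx0 : 0 < x := by linarith
  have hlx : 1 < Real.log x := by
    rw [Real.lt_log_iff_exp_lt hx0]
    have := Real.exp_one_lt_d9
    linarith
  have h1 := hC (finrank ℚ K) K rfl W ψ hψ τ x hx G hG (fun t ht => hb t (ht.trans (by
    have h2 : Real.log x ^ (5 * (finrank ℚ K : ℕ) : ℝ) = Real.log x ^ (5 * finrank ℚ K) := by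
      rw [← Real.rpow_natCast]
      push_cast
      rfl
    rw [h2]
    gcongr
    exact hlx.le)))
  refine h1.trans ?_
  have hl : 0 ≤ Real.log (Real.log x) := Real.log_nonneg hlx.le
  have hL0 : 0 < Real.log x := by linarith
  have hC1 := hle (finrank ℚ K) (Finset.mem_range.mpr (by omega))
  have hp : 0 < x ^ (3 / 2 : ℝ) := Real.rpow_pos_of_pos hx0 _
  gcongr

/-- The variation of the logarithm along a horizontal line. -/
theorem logd_M (M : ℕ) : ∃ C : ℝ, 0 ≤ C ∧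
    ∀ (K : Type u) [Field K] [NumberField K], finrank ℚ K ≤ M →
    ∀ (E : WeierstrassCurve K) (f : HeightOneSpectrum (𝓞 K) → ℂ), (∀ v, ‖f v‖ ≤ 1) →
    ∀ δ δ' t : ℝ, 0 < δ → δ ≤ δ' → δ' ≤ 1 →
      Real.log ‖LE E f ((3 / 2 + δ : ℝ) + t * Complex.I)‖ ≤
      Real.log ‖LE E f ((3 / 2 + δ' : ℝ) + t * Complex.I)‖ + C * Real.log (δ' / δ) := by
  choose C hC1 hC using stLOGDU.{u}
  have hle : ∀ N ∈ Finset.range (M + 1), C N ≤ ∑ i ∈ Finset.range (M + 1), C i := fun N hN =>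
    Finset.single_le_sum (f := C) (fun i _ => hC1 i) hN
  refine ⟨∑ N ∈ Finset.range (M + 1), C N, (hC1 0).trans (hle 0 (by simp)),
    fun K _ _ hK W f hf δ δ' t hδ hδδ hδ1 => ?_⟩
  have h1 := (abs_le.mp (hC (finrank ℚ K) K rfl W f hf δ δ' t hδ hδδ hδ1)).1
  have h2 := hle (finrank ℚ K) (Finset.mem_range.mpr (by omega))
  have h3 : 0 ≤ Real.log (δ' / δ) := Real.log_nonneg ((one_le_div hδ).mpr hδδ)
  have h4 := mul_le_mul_of_nonneg_right h2 h3
  linarith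

/-- A large mean value gives a large value. -/
theorem exists_point (M : ℕ) : ∃ C' B : ℝ, 0 < C' ∧ 0 ≤ B ∧ ∀ η : ℝ, 0 < η → ∃ l₀ : ℝ,
    ∀ (K : Type u) [Field K] [NumberField K], finrank ℚ K ≤ M →
    ∀ (W : WeierstrassCurve K) (ψ : HeightOneSpectrum (𝓞 K) → ℂ), (∀ v, ‖ψ v‖ ≤ 1) →
    ∀ L X τ κ : ℝ, 1 ≤ Real.log L → l₀ ≤ Real.log L → 1 ≤ L → 3 ≤ X → L ≤ Real.log X →
    Real.log (Real.log X) ≤ (1 + κ) * Real.log L → κ ≤ 1 →
    X ^ (3 / 2 : ℝ) * Real.log X ^ (-1 + η) <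
        ‖∑ m ∈ Finset.Icc 1 ⌊X⌋₊, LFun W ψ m * (m : ℂ) ^ (-(τ : ℂ) * Complex.I)‖ →
    ∃ t : ℝ, |t| ≤ 2 * Real.log X ^ (5 * M) ∧
      η * Real.log L - B * κ * Real.log L - Real.log (C' * (1 + Real.log L)) ≤
        Real.log ‖LE W ψ (((3 / 2 + 1 / L : ℝ) : ℂ) + (t + τ : ℝ) * Complex.I)‖ := by
  obtain ⟨C₁, hC₁1, hCP⟩ := mean_leM.{u} M
  obtain ⟨B, hB0, hgrow⟩ := logd_M.{u} M
  have hC₁0 : 0 < C₁ := by linarith
  refine ⟨2 * C₁, B, by positivity, hB0, fun η hη => ?_⟩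
  have hsm2 : ∀ᶠ l : ℝ in atTop, (Real.log (C₁ * (1 + l)) + 0) / l < η :=
    (eventually_small C₁ 0 hC₁0).1.eventually (gt_mem_nhds hη)
  obtain ⟨l₀, hl₀⟩ := eventually_atTop.mp hsm2
  refine ⟨l₀, fun K _ _ hK W ψ hψ L X τ κ hl hll₀ hL1 hX3 hXL hXk hκ1 hbig => ?_⟩
  set l : ℝ := Real.log L with hldef
  set R : ℝ := Real.log X with hR
  set μ : ℝ := Real.log R with hμ
  have hL0 : 0 < L := by linarith
  have hXl : l ≤ μ := Real.log_le_log hL0 hXL
  have hR0 : 0 < R := by linarith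
  have hμ0 : 0 < μ := by linarith
  set G : ℝ := R ^ η / (C₁ * (1 + μ)) with hG
  have hden : 0 < C₁ * (1 + μ) := by positivity
  have hlogG : Real.log G = η * μ - Real.log (C₁ * (1 + μ)) := by
    rw [hG, Real.log_div (by positivity) hden.ne', Real.log_rpow hR0]
  have hG0 : 0 < G := by positivity
  have hG1 : 1 ≤ G := by
    have h1 := hl₀ μ (hll₀.trans hXl)
    rw [add_zero, div_lt_iff₀ hμ0] at h1
    have : 0 ≤ Real.log G := by rw [hlogG]; linarith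
    exact (Real.log_nonneg_iff hG0).mp this
  by_contra hcon
  push Not at hcon
  have h1 := hCP K hK W ψ hψ τ X hX3 G hG1 (fun t ht => by
    by_contra hlt
    rw [not_le] at hlt
    have h2 := hcon t ht
    have h3 := hgrow K hK W ψ hψ (1 / R) (1 / L) (t + τ) (by positivity)
      (one_div_le_one_div_of_le hL0 hXL) (by rw [div_le_one hL0]; exact hL1)
    have h4 : Real.log (1 / L / (1 / R)) = μ - l := by
      rw [show 1 / L / (1 / R) = R / L by field_simp, Real.log_div hR0.ne' hL0.ne']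
    rw [h4] at h3
    have h5 : Real.log G ≤ Real.log ‖LE W ψ ((3 / 2 + 1 / R : ℝ) + (t + τ : ℝ) * Complex.I)‖ :=
      Real.log_le_log hG0 hlt.le
    have h6 : Real.log (C₁ * (1 + μ)) ≤ Real.log (2 * C₁ * (1 + l)) := by
      refine Real.log_le_log (by positivity) ?_
      have h7 : κ * l ≤ 1 * l := mul_le_mul_of_nonneg_right hκ1 (by linarith)
      have h8 : 1 + μ ≤ 2 * (1 + l) := by linarith
      calc C₁ * (1 + μ) ≤ C₁ * (2 * (1 + l)) := mul_le_mul_of_nonneg_left h8 hC₁0.le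
        _ = _ := by ring
    rw [hlogG] at h5
    have h10 : η * l ≤ η * μ := mul_le_mul_of_nonneg_left hXl hη.le
    have h11 : B * (μ - l) ≤ B * (κ * l) :=
      mul_le_mul_of_nonneg_left (by linarith) hB0
    linarith)
  have h4 : C₁ * X ^ (3 / 2 : ℝ) * G * (1 + μ) / R ≤ X ^ (3 / 2 : ℝ) * R ^ (-1 + η) := by
    have e1 : R ^ (-1 + η) = R ^ η / R := by
      rw [add_comm, Real.rpow_add hR0, Real.rpow_neg_one, div_eq_mul_inv]
    rw [e1]
    refine le_of_eq ?_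
    rw [hG]
    field_simp
  linarith

end Pool.Agent.Lib.MP_bf61d2_nt.MV59U
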