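import Mathlib
import Pool.Agent.Lib.MP_bf61d2_nt.Trim.Artin.R.DefsR
import Pool.Agent.Lib.MP_bf61d2_nt.Trim.MV59U.CoreU59
import Pool.Agent.Lib.MP_bf61d2_nt.Trim.MV59Y.LFunY

set_option autoImplicit false

/-!
Counting the L-functions of a family with a large mean value at some point of a long range: the
abstract form.
-/

namespace NumberField
end NumberField

namespace Pool.Agent.Lib.MP_bf61d2_nt.MV59
end Pool.Agent.Lib.MP_bf61d2_nt.MV59

namespace Pool.Agent.Lib.MP_bf61d2_nt.Artin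
end Pool.Agent.Lib.MP_bf61d2_nt.Artin

namespace Pool.Agent.Lib.MP_bf61d2_nt.Artin.Ray
end Pool.Agent.Lib.MP_bf61d2_nt.Artin.Ray

namespace Pool.Agent.Lib.MP_bf61d2_nt.MV59Y
end Pool.Agent.Lib.MP_bf61d2_nt.MV59Y

namespace Pool.Agent.Lib.MP_bf61d2_nt.MV59U

open Filter Topology NumberField IsDedekindDomain ArithmeticFunction MV59 Artin Artin.Ray Module

open MV59Y (LFun)

universe u

/-- From large mean values to sums of logarithms of values, for any family of L-functions over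
number fields of bounded degree. -/
theorem count_coreU (M : ℕ) (hM : 0 < M) {a c η : ℝ} (C₂ : ℝ) (ha : 0 < a) (hc : 0 ≤ c)
    (hcη : c < η) :
    ∃ κ x₀ : ℝ, 0 < κ ∧ ∀ x : ℝ, x₀ ≤ x →
      ∀ (n : ℕ) (F : Fin n → Type u) [∀ i, Field (F i)] [∀ i, NumberField (F i)]
      (W : ∀ i, WeierstrassCurve (F i)) (f : ∀ i, HeightOneSpectrum (𝓞 (F i)) → ℂ)
      (τ X : Fin n → ℝ), (∀ i, finrank ℚ (F i) ≤ M) → (∀ i v, ‖f i v‖ ≤ 1) →
      (∀ i, x ≤ X i ∧ X i ≤ Real.exp (Real.log x ^ (1 + κ))) →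
      (∀ i, X i ^ (3 / 2 : ℝ) * Real.log (X i) ^ (-1 + η) <
        ‖∑ m ∈ Finset.Icc 1 ⌊X i⌋₊, LFun (W i) (f i) m * (m : ℂ) ^ (-(τ i : ℂ) * Complex.I)‖) →
      (∀ t : Fin n → ℝ, (∀ i, |t i| ≤ Real.log x ^ (5 * M + 1) / 2 - 1) →
        ∑ i, Real.log ‖LE (W i) (f i)
          (((3 / 2 + 1 / Real.log x : ℝ) : ℂ) + (t i + τ i : ℝ) * Complex.I)‖ ≤
          a * Real.log (Real.log x) * Real.sqrt n + (c * Real.log (Real.log x) + C₂) * n) →
      (n : ℝ) ≤ a ^ 2 / (η - c) ^ 2 := by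
  obtain ⟨C', B, hC'0, hB0, hpt⟩ := exists_point.{u} M
  have hη : 0 < η := by linarith
  obtain ⟨l₀, hpt⟩ := hpt η hη
  have hMr : (1 : ℝ) ≤ M := by exact_mod_cast hM
  have hb0 : 0 < η - c := by linarith
  obtain ⟨κ, hκ, hκ10, hgap⟩ := exists_gapU ha hb0 C₂ hB0 hC'0 (m := 1 / (10 * M))
    (by positivity)
  have hκ1 : κ ≤ 1 := hκ10.trans (by
    rw [div_le_one (by positivity)]
    linarith)
  have hll : Tendsto (fun x : ℝ => Real.log (Real.log x)) atTop atTop :=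
    Real.tendsto_log_atTop.comp Real.tendsto_log_atTop
  obtain ⟨x₀, hx₀⟩ := eventually_atTop.mp (((hll.eventually (hgap.and
    ((eventually_ge_atTop 1).and (eventually_ge_atTop l₀)))).and
    (eventually_ge_atTop (Real.exp 30))).and (eventually_ge_atTop 3))
  refine ⟨κ, x₀, hκ, fun x hx n F _ _ W f τ X hF hf hX₀ hbig H => ?_⟩
  obtain ⟨⟨⟨hg, hl, hll₀⟩, hxe⟩, hx3⟩ := hx₀ x hx
  set L : ℝ := Real.log x with hL
  set l : ℝ := Real.log L with hldef
  have hx0 : 0 < x := by linarith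
  have hL2 : 30 ≤ L := by rwa [hL, Real.le_log_iff_exp_le hx0]
  have hL0 : 0 < L := by linarith
  have hl0 : 0 < l := by linarith
  -- facts on the points `X i`
  have hX : ∀ i, 3 ≤ X i ∧ L ≤ Real.log (X i) ∧ Real.log (Real.log (X i)) ≤ (1 + κ) * l ∧
      5 * Real.log (X i) ^ (5 * M) ≤ L ^ (5 * M + 1) := by
    intro i
    obtain ⟨h1, h2⟩ := hX₀ i
    have h3 : L ≤ Real.log (X i) := Real.log_le_log hx0 h1
    have h4 : Real.log (X i) ≤ L ^ (1 + κ) := by
      rw [Real.log_le_iff_le_exp (by linarith)]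
      exact h2
    refine ⟨hx3.trans h1, h3, ?_, ?_⟩
    · have h5 := Real.log_le_log (by linarith) h4
      rwa [Real.log_rpow hL0] at h5
    · have h5 : Real.log (X i) ^ (5 * M) ≤ (L ^ (1 + κ)) ^ (5 * M) :=
        pow_le_pow_left₀ (by linarith) h4 _
      have h6 : (L ^ (1 + κ)) ^ (5 * M) ≤ L ^ (5 * M + 1 / 2 : ℝ) := by
        rw [← Real.rpow_natCast, ← Real.rpow_mul hL0.le]
        refine Real.rpow_le_rpow_of_exponent_le (by linarith) ?_
        have h7 : κ * (5 * M) ≤ 1 / (10 * M) * (5 * M) :=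
          mul_le_mul_of_nonneg_right hκ10 (by positivity)
        have h8 : 1 / (10 * (M : ℝ)) * (5 * M) = 1 / 2 := by field_simp; norm_num
        push_cast
        linarith
      have h7 : (L ^ (5 * M + 1) : ℝ) = L ^ (5 * M + 1 / 2 : ℝ) * L ^ (1 / 2 : ℝ) := by
        rw [← Real.rpow_add hL0, ← Real.rpow_natCast]
        congr 1
        push_cast
        ring
      have h8 : 5 ≤ L ^ (1 / 2 : ℝ) := by
        rw [← Real.sqrt_eq_rpow]
        exact Real.le_sqrt_of_sq_le (by linarith)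
      have h9 : 0 < L ^ (5 * M + 1 / 2 : ℝ) := by positivity
      rw [h7, mul_comm]
      exact mul_le_mul (h5.trans h6) h8 (by norm_num) h9.le
  have hbad : ∀ i, ∃ t : ℝ, |t| ≤ 2 * Real.log (X i) ^ (5 * M) ∧
      η * l - B * κ * l - Real.log (C' * (1 + l)) ≤
        Real.log ‖LE (W i) (f i) (((3 / 2 + 1 / L : ℝ) : ℂ) + (t + τ i : ℝ) * Complex.I)‖ :=
    fun i => hpt (F i) (hF i) (W i) (f i) (hf i) L (X i) (τ i) κ hl hll₀ (by linarith)
      (hX i).1 (hX i).2.1 (hX i).2.2.1 hκ1 (hbig i)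
  choose t ht using hbad
  have ht' : ∀ i, |t i| ≤ L ^ (5 * M + 1) / 2 - 1 := by
    intro i
    have h1 := (ht i).1
    have h2 := (hX i).2.2.2
    have h3 : 30 ≤ Real.log (X i) := hL2.trans (hX i).2.1
    have h4 : 2 ≤ Real.log (X i) ^ (5 * M) := by
      have h5 : (2 : ℝ) ≤ Real.log (X i) ^ 1 := by rw [pow_one]; linarith
      exact h5.trans (pow_le_pow_right₀ (by linarith) (by omega))
    linarith
  have hb := H t ht'
  -- lower bound
  have hlow : (n : ℝ) * ((η - B * κ) * l - Real.log (C' * (1 + l))) ≤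
      ∑ i, Real.log ‖LE (W i) (f i)
        (((3 / 2 + 1 / L : ℝ) : ℂ) + (t i + τ i : ℝ) * Complex.I)‖ := by
    have hcard : ((Finset.univ : Finset (Fin n)).card : ℝ) = n := by
      rw [Finset.card_univ, Fintype.card_fin]
    rw [← hcard, ← nsmul_eq_mul]
    refine Finset.card_nsmul_le_sum _ _ _ fun i _ => ?_
    have h3 := (ht i).2
    linarith
  refine real_end ha n hg ?_
  set θ : ℝ := η - c - B * κ - (Real.log (C' * (1 + l)) + C₂) / l with hθ
  have h1 : ((n : ℝ) * θ) * l ≤ (a * Real.sqrt n) * l := by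
    have e1 : ((n : ℝ) * θ) * l = n * ((η - B * κ) * l - Real.log (C' * (1 + l))) -
        (c * l + C₂) * n := by
      rw [hθ]
      field_simp
      ring
    rw [e1]
    have h2 := hlow.trans hb
    linarith
  exact le_of_mul_le_mul_right h1 hl0

end Pool.Agent.Lib.MP_bf61d2_nt.MV59U
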