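import Mathlib
import Pool.Agent.Lib.MP_bf61d2_nt.Trim.Artin.T.DefsT84
import Pool.Agent.Lib.MP_bf61d2_nt.Trim.Artin.UK.BESLU73
import Pool.Agent.Lib.MP_bf61d2_nt.Trim.Artin.UK.StmtsU84

set_option autoImplicit false

/-!
The choice of the size in terms of the length of the sums.
-/

namespace NumberField
end NumberField

namespace Pool.Agent.Lib.MP_bf61d2_nt.MV59
end Pool.Agent.Lib.MP_bf61d2_nt.MV59

namespace Pool.Agent.Lib.MP_bf61d2_nt.Artin
end Pool.Agent.Lib.MP_bf61d2_nt.Artin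

namespace Pool.Agent.Lib.MP_bf61d2_nt.Artin.Ray
end Pool.Agent.Lib.MP_bf61d2_nt.Artin.Ray

namespace Pool.Agent.Lib.MP_bf61d2_nt.MV59U

open Filter Topology NumberField MV59 Artin Artin.Ray

universe u

lemma exp_three_bounds : (20 : ℝ) ≤ Real.exp 3 := by
  have h5 : (2.7182 : ℝ) ≤ Real.exp 1 := by
    have := Real.exp_one_gt_d9; linarith
  have h6 : Real.exp 3 = Real.exp 1 ^ 3 := by
    rw [← Real.exp_nat_mul]; norm_num
  calc (20 : ℝ) ≤ 2.7182 ^ 3 := by norm_num
    _ ≤ Real.exp 1 ^ 3 := pow_le_pow_left₀ (by norm_num) h5 3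
    _ = Real.exp 3 := h6.symm

/-- The size. -/
theorem q_facts (M : ℕ) {k : ℝ} (hk : 0 < k) (hk1 : k < 1) : ∃ x₀ : ℝ, ∀ x : ℝ, x₀ ≤ x →
    30 ≤ Real.log x ∧ 1 ≤ Real.log (Real.log x) ∧
    20 ≤ Real.exp (Real.log x ^ k) ∧
    2 * Real.exp (Real.log x ^ k) ≤ Real.exp (2 * Real.log x ^ k) ∧
    6 ≤ Real.log (Real.exp (2 * Real.log x ^ k)) ∧
    Real.log (Real.exp (2 * Real.log x ^ k)) ≤ Real.log x ∧
    lq (Real.exp (2 * Real.log x ^ k)) = Real.log 2 + k * Real.log (Real.log x) ∧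
    Real.log x ^ (5 * M + 1) ≤ Real.exp (Real.log x ^ k) := by
  have hll : Tendsto (fun x : ℝ => Real.log (Real.log x)) atTop atTop :=
    Real.tendsto_log_atTop.comp Real.tendsto_log_atTop
  -- growth of `Q`
  have hQ : ∀ᶠ l : ℝ in atTop, 3 ≤ Real.exp (k * l) ∧
      ((5 * M + 1 : ℕ) : ℝ) * l ≤ Real.exp (k * l) ∧ 1 ≤ k * l ∧ 1 ≤ (1 - k) * l := by
    have h1 : Tendsto (fun l : ℝ => Real.exp (k * l)) atTop atTop :=
      Real.tendsto_exp_atTop.comp (tendsto_id.const_mul_atTop hk)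
    have h2 : Tendsto (fun l : ℝ => Real.exp (k * l) / l) atTop atTop := by
      have h3 := (Real.tendsto_exp_div_pow_atTop 1).comp (tendsto_id.const_mul_atTop hk)
      have h4 := h3.const_mul_atTop hk
      refine h4.congr' ?_
      filter_upwards [eventually_gt_atTop 0] with l hl
      simp only [Function.comp, id, pow_one]
      field_simp
    have h0 : Tendsto (fun l : ℝ => k * l) atTop atTop := tendsto_id.const_mul_atTop hk
    have h0' : Tendsto (fun l : ℝ => (1 - k) * l) atTop atTop :=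
      tendsto_id.const_mul_atTop (by linarith)
    filter_upwards [h1.eventually (eventually_ge_atTop 3),
      h2.eventually (eventually_ge_atTop ((5 * M + 1 : ℕ) : ℝ)),
      eventually_ge_atTop 1, h0.eventually (eventually_ge_atTop 1),
      h0'.eventually (eventually_ge_atTop 1)] with l h5 h6 h7 h8 h9
    rw [le_div_iff₀ (by linarith)] at h6
    exact ⟨h5, h6, h8, h9⟩
  obtain ⟨x₀, hx₀⟩ := eventually_atTop.mp (((hll.eventually (hQ.and
    (eventually_ge_atTop 1))).and (eventually_ge_atTop (Real.exp 30))).and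
    (eventually_ge_atTop 3))
  refine ⟨x₀, fun x hx => ?_⟩
  obtain ⟨⟨⟨⟨hQ1, hQ2, hQ3, hQ4⟩, hl⟩, hxe⟩, hx3⟩ := hx₀ x hx
  set L : ℝ := Real.log x with hL
  set l : ℝ := Real.log L with hldef
  have hx0 : 0 < x := by linarith
  have hL2 : 30 ≤ L := by rwa [hL, Real.le_log_iff_exp_le hx0]
  have hL0 : 0 < L := by linarith
  have hl0 : 0 < l := by linarith
  have hLk : L ^ k = Real.exp (k * l) := by
    rw [Real.rpow_def_of_pos hL0, ← hldef, mul_comm]
  have hLk0 : 3 ≤ L ^ k := by rw [hLk]; exact hQ1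
  have hQ20 : 20 ≤ Real.exp (L ^ k) := exp_three_bounds.trans (Real.exp_le_exp.mpr hLk0)
  have hQQ : Real.exp (2 * L ^ k) = Real.exp (L ^ k) * Real.exp (L ^ k) := by
    rw [← Real.exp_add]; congr 1; ring
  refine ⟨hL2, hl, hQ20, ?_, ?_, ?_, ?_, ?_⟩
  · rw [hQQ]
    exact mul_le_mul_of_nonneg_right (by linarith) (by linarith)
  · rw [Real.log_exp]
    linarith
  · rw [Real.log_exp]
    have h1 : L = Real.exp l := (Real.exp_log hL0).symm
    have h2 : (2 : ℝ) ≤ Real.exp 1 := by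
      have := Real.exp_one_gt_d9; linarith
    calc 2 * L ^ k = 2 * Real.exp (k * l) := by rw [hLk]
      _ ≤ Real.exp 1 * Real.exp (k * l) := mul_le_mul_of_nonneg_right h2 (Real.exp_pos _).le
      _ = Real.exp (1 + k * l) := by rw [Real.exp_add]
      _ ≤ Real.exp l := Real.exp_le_exp.mpr (by linarith)
      _ = L := h1.symm
  · rw [lq, Real.log_exp, Real.log_mul (by norm_num) (by positivity), hLk, Real.log_exp]
  · have h1 : L ^ (5 * M + 1) = Real.exp (((5 * M + 1 : ℕ) : ℝ) * l) := by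
      rw [← Real.rpow_natCast, Real.rpow_def_of_pos hL0, ← hldef, mul_comm]
    rw [h1, hLk]
    exact Real.exp_le_exp.mpr hQ2

/-- The discriminant. -/
lemma d_facts (K : Type u) [Field K] [NumberField K] {L k k' : ℝ} (hL : 30 ≤ L)
    (hk'0 : 0 ≤ k') (hk' : k' ≤ k) (hdK : dK K ≤ Real.exp (L ^ k')) :
    dK K ≤ Real.exp (2 * L ^ k) ∧
    Real.log (Real.log (20 * dK K)) ≤ k' * Real.log L + 2 := by
  have hL0 : 0 < L := by linarith
  have h0 : 1 ≤ L ^ k' := Real.one_le_rpow (by linarith) hk'0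
  constructor
  · refine hdK.trans ?_
    have h1 : L ^ k' ≤ L ^ k := Real.rpow_le_rpow_of_exponent_le (by linarith) hk'
    exact Real.exp_le_exp.mpr (by linarith)
  · have h1 : 1 ≤ dK K := one_le_dK73 K
    have h2 : Real.log (20 * dK K) ≤ 4 * L ^ k' := by
      rw [Real.log_mul (by norm_num) (by linarith)]
      have h3 : Real.log 20 ≤ 3 := by
        rw [Real.log_le_iff_le_exp (by norm_num)]
        exact exp_three_bounds
      have h4 : Real.log (dK K) ≤ L ^ k' := by
        rw [Real.log_le_iff_le_exp (by linarith)]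
        exact hdK
      linarith
    have h3 : 0 < Real.log (20 * dK K) := Real.log_pos (by linarith)
    have h5 : Real.log 4 = 2 * Real.log 2 := by
      rw [show (4 : ℝ) = 2 ^ 2 by norm_num, Real.log_pow]
      norm_num
    have h6 := Real.log_two_lt_d9
    refine (Real.log_le_log h3 h2).trans ?_
    rw [Real.log_mul (by norm_num) (by linarith), Real.log_rpow hL0, h5]
    linarith

end Pool.Agent.Lib.MP_bf61d2_nt.MV59U
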