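import Mathlib
import Pool.Agent.Lib.MP_bf61d2_nt.Trim.Artin.H.BASH36
import Pool.Agent.Lib.MP_bf61d2_nt.Trim.Artin.H.DefsH
import Pool.Agent.Lib.MP_bf61d2_nt.Trim.Artin.MO.INTM88
import Pool.Agent.Lib.MP_bf61d2_nt.Trim.Artin.MO.MFIN84
import Pool.Agent.Lib.MP_bf61d2_nt.Trim.Artin.MO.StmtsI63
import Pool.Agent.Lib.MP_bf61d2_nt.Trim.Artin.MO.StmtsM63
import Pool.Agent.Lib.MP_bf61d2_nt.Trim.Artin.R.DefsR
import Pool.Agent.Lib.MP_bf61d2_nt.Trim.Artin.T.DefsT84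
import Pool.Agent.Lib.MP_bf61d2_nt.Trim.Artin.UK.BESLU73
import Pool.Agent.Lib.MP_bf61d2_nt.Trim.Artin.UK.CST36
import Pool.Agent.Lib.MP_bf61d2_nt.Trim.Artin.UK.INTLUD88
import Pool.Agent.Lib.MP_bf61d2_nt.Trim.Artin.UK.StmtsU84
import Pool.Agent.Lib.MP_bf61d2_nt.Trim.Artin.UK.T1U25
import Pool.Agent.Lib.MP_bf61d2_nt.Trim.Artin.UK.UFIN84
import Pool.Agent.Lib.MP_bf61d2_nt.Trim.Artin.UK.WL1U36
import Pool.Agent.Lib.MP_bf61d2_nt.Trim.Joint.Main
import Pool.Agent.Lib.MP_bf61d2_nt.Trim.MV59U.CoreV59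
import Pool.Agent.Lib.MP_bf61d2_nt.Trim.MV59U.QU59
import Pool.Agent.Lib.MP_bf61d2_nt.Trim.MV59Y.LFunY

set_option autoImplicit false

/-!
Mean values of the coefficients of the twists by the unitary Hecke characters of all the extensions
of bounded degree, uniformly in the number fields of a given degree.
-/

namespace NumberField
end NumberField

namespace Pool.Agent.Lib.MP_bf61d2_nt.MV59
end Pool.Agent.Lib.MP_bf61d2_nt.MV59

namespace Pool.Agent.Lib.MP_bf61d2_nt.Artin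
end Pool.Agent.Lib.MP_bf61d2_nt.Artin

namespace Pool.Agent.Lib.MP_bf61d2_nt.Artin.Ray
end Pool.Agent.Lib.MP_bf61d2_nt.Artin.Ray

namespace Pool.Agent.Lib.MP_bf61d2_nt.MV59Y
end Pool.Agent.Lib.MP_bf61d2_nt.MV59Y

namespace Pool.Agent.Lib.MP_bf61d2_nt.MV59U

open Filter Topology NumberField IsDedekindDomain ArithmeticFunction MV59 Artin Artin.Ray Module

open MV59Y (LFun)

open scoped Classical

universe u

/-- The integrated form, without hypotheses. -/
theorem stINTM59 (n m : ℕ) : StINTM.{u} n m :=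
  stINTM_of n m (stMAINM n m) (stT1U25 n (stDLU n) (stWL1U n))
    (fun k => stEDU_of k (stLELOGU k) (stDLU k)) stLELOGU

lemma dK_le59 (K F : Type u) [Field K] [NumberField K] [Field F] [NumberField F] [Algebra K F] :
    dK K ≤ dK F := by
  have h2 : discr K ∣ discr F := discr_dvd_discr K F
  have h3 : |discr K| ≤ |discr F| :=
    Int.le_of_dvd (abs_pos.mpr (discr_ne_zero _)) ((abs_dvd_abs _ _).mpr h2)
  unfold dK
  exact_mod_cast h3

/-- Mean values of the coefficients of the twists of `E_d` by the unitary Hecke characters of the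
extensions of degree at most `m`, uniformly in the field. -/
theorem mean_mono (n m : ℕ) (hn : 0 < n) (hm : 0 < m) {k k' η : ℝ} (hk : 0 < k) (hk'0 : 0 ≤ k')
    (hk' : k' ≤ k) (hkη : 2 * k + 2 * ((n * m : ℕ) - 1) * k' < η) (hk1 : k < 1) :
    ∃ κ x₀ : ℝ, 0 < κ ∧ ∀ x : ℝ, x₀ ≤ x →
      ∀ (K : Type u) [Field K] [NumberField K], finrank ℚ K = n →
      ∀ (E : WeierstrassCurve K) [E.IsElliptic] (N : ℕ) (F : Fin N → Type u) [∀ i, Field (F i)]
        [∀ i, NumberField (F i)] [∀ i, Algebra K (F i)] (d : Fin N → ℕ)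
        (𝔪 : ∀ i, Ideal (𝓞 (F i))) (a : ∀ i, TA (F i)) (b : ∀ i, TB (F i))
        (ψ : ∀ i, Ideal (𝓞 (F i)) →*₀ ℂ) (τ X : Fin N → ℝ),
      (∀ i, OkM K m (Real.exp (Real.log x ^ k)) (F i) (d i) (𝔪 i) (a i) (b i) (ψ i) (τ i)) →
      (∀ i, dK (F i) ≤ Real.exp (Real.log x ^ k')) →
      (∀ i, x ≤ X i ∧ X i ≤ Real.exp (Real.log x ^ (1 + κ))) →
      (∀ i, ∀ C : Cmp K (F i) (F i), Agr C (d i) (d i) (𝔪 i) (𝔪 i) (ψ i) (ψ i) → C.α = C.β) →
      (∀ i j, i ≠ j → (∃ C : Cmp K (F i) (F j), Agr C (d i) (d j) (𝔪 i) (𝔪 j) (ψ i) (ψ j)) →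
        Real.log x ^ (5 * (n * m) + 1) ≤ |τ i - τ j|) →
      (∀ i, X i ^ (3 / 2 : ℝ) * Real.log (X i) ^ (-1 + η) <
        ‖∑ l ∈ Finset.Icc 1 ⌊X i⌋₊, LFun (qt (E.baseChange (F i)) (d i : F i))
          (fun w => ψ i w.asIdeal) l * (l : ℂ) ^ (-(τ i : ℂ) * Complex.I)‖) →
      (N : ℝ) ≤ (2 * (1 - k)) ^ 2 / (η - (2 * k + 2 * ((n * m : ℕ) - 1) * k')) ^ 2 := by
  obtain ⟨C, hC, hI⟩ := stINTM59.{u} n m
  set M : ℕ := n * m with hMdef
  have hM : 0 < M := Nat.mul_pos hn hm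
  have hNr : (1 : ℝ) ≤ M := by exact_mod_cast hM
  have hN1 : (0 : ℝ) ≤ (M : ℝ) - 1 := by linarith
  obtain ⟨κ, x₁, hκ, h⟩ := count_coreU.{u} M hM (a := 2 * (1 - k))
    (c := 2 * k + 2 * (M - 1) * k') (η := η) (2 + 4 * (M - 1) + C) (by linarith)
    (by positivity) hkη
  obtain ⟨x₂, hq⟩ := q_facts M hk hk1
  refine ⟨κ, max x₁ x₂, hκ, fun x hx K _ _ hK E _ N F _ _ _ d 𝔪 a b ψ τ X hy hdF hX hirr hsep
    hbig => ?_⟩
  rcases Nat.eq_zero_or_pos N with hN | hN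
  · subst hN
    rw [Nat.cast_zero]
    positivity
  obtain ⟨hL, hl, hQ20, hQ₀Q, hlogQ6, hlogQL, hlq, hL6Q⟩ := hq x ((le_max_right _ _).trans hx)
  have hdF' : ∀ i, dK (F i) ≤ Real.exp (2 * Real.log x ^ k) ∧
      Real.log (Real.log (20 * dK (F i))) ≤ k' * Real.log (Real.log x) + 2 := fun i =>
    d_facts (F i) (k := k) hL hk'0 hk' (hdF i)
  have hdeg : ∀ i, finrank ℚ (F i) ≤ M := by
    intro i
    rw [← finrank_mul_finrank ℚ K (F i), hK, hMdef]
    exact Nat.mul_le_mul_left _ (hy i).1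
  have hψ : ∀ i v, ‖ψ i (v : HeightOneSpectrum (𝓞 (F i))).asIdeal‖ ≤ 1 := fun i v =>
    normH_le36 (hy i).2.2.2.2.1 (hy i).2.2.2.2.2.1 _
  refine h x ((le_max_left _ _).trans hx) N F (fun i => qt (E.baseChange (F i)) (d i : F i))
    (fun i v => ψ i v.asIdeal) τ X hdeg hψ hX hbig fun t ht => ?_
  set L : ℝ := Real.log x with hLdef
  set l : ℝ := Real.log L with hldef
  set Q₀ : ℝ := Real.exp (L ^ k) with hQ₀def
  set Q : ℝ := Real.exp (2 * L ^ k) with hQdef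
  have hL0 : 0 < L := by linarith
  have hdQ : dK K ≤ Q := (dK_le59 K (F ⟨0, hN⟩)).trans (hdF' ⟨0, hN⟩).1
  have h1 := hI K hK Q (by linarith) hdQ E (1 / L) (by positivity)
    (one_div_le_one_div_of_le (by linarith) hlogQL) N F d 𝔪 a b ψ (fun i => t i + τ i)
    (fun i => by
      obtain ⟨g1, g2, g3, g4, g5, g6, g7, g8, g9, g10⟩ := hy i
      refine ⟨g1, (hdF' i).1, g3, g4.trans (by linarith), g5, g6, g7.trans (by linarith),
        fun w => (g8 w).trans (by linarith), fun w => (g9 w).trans (by linarith), ?_⟩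
      have h1 := abs_add_le (t i) (τ i)
      have h2 := ht i
      linarith) hirr
    (fun i j hij he => by
      have h1 := hsep i j hij he
      have h2 := ht i
      have h3 := ht j
      have h4 : 1 / Real.log Q ≤ 1 := by
        rw [div_le_one (by linarith)]
        linarith
      have h6 : |τ i - τ j| ≤ |(t i + τ i) - (t j + τ j)| + |t i| + |t j| := by
        have e : τ i - τ j = ((t i + τ i) - (t j + τ j)) + (-(t i)) + t j := by ring
        rw [e]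
        refine (abs_add_le _ _).trans ?_
        refine add_le_add ((abs_add_le _ _).trans ?_) le_rfl
        rw [abs_neg]
      linarith) (fun _ => 1) (fun _ => zero_le_one)
  have e1 : ∑ _i : Fin N, (1 : ℝ) ^ 2 = N := by simp
  rw [e1, one_div_one_div, ← hldef] at h1
  simp only [one_mul] at h1
  refine ((le_abs_self _).trans h1).trans ?_
  have hS0 : 0 ≤ Real.sqrt N := Real.sqrt_nonneg _
  have hlog2 := Real.log_two_lt_d9
  have hlog2' := Real.log_two_gt_d9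
  have h3 : (0 : ℝ) ≤ N := Nat.cast_nonneg N
  have hcoef : ∀ i, 2 * lq Q + 2 * ((finrank ℚ (F i) : ℝ) - 1) *
      Real.log (Real.log (20 * dK (F i))) + C ≤
      (2 * k + 2 * (M - 1) * k') * l + (2 + 4 * (M - 1) + C) := by
    intro i
    have hd1 : 1 ≤ dK (F i) := one_le_dK73 (F i)
    have hll0 : 0 ≤ Real.log (Real.log (20 * dK (F i))) := by
      refine Real.log_nonneg ?_
      rw [Real.le_log_iff_exp_le (by linarith)]
      have := Real.exp_one_lt_d9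
      linarith
    have hdegr : (finrank ℚ (F i) : ℝ) ≤ M := by exact_mod_cast hdeg i
    have h1 : 2 * ((finrank ℚ (F i) : ℝ) - 1) * Real.log (Real.log (20 * dK (F i))) ≤
        2 * ((M : ℝ) - 1) * (k' * l + 2) :=
      mul_le_mul (by linarith) (hdF' i).2 hll0 (by linarith)
    have e : 2 * ((M : ℝ) - 1) * (k' * l + 2) = 2 * (M - 1) * k' * l + 4 * (M - 1) := by ring
    rw [e] at h1
    rw [hlq]
    linarith
  have h4 : ∑ i : Fin N, (2 * lq Q + 2 * ((finrank ℚ (F i) : ℝ) - 1) *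
      Real.log (Real.log (20 * dK (F i))) + C) ≤
      ((2 * k + 2 * (M - 1) * k') * l + (2 + 4 * (M - 1) + C)) * N := by
    refine (Finset.sum_le_card_nsmul _ _ _ fun i _ => hcoef i).trans (le_of_eq ?_)
    rw [Finset.card_univ, Fintype.card_fin, nsmul_eq_mul, mul_comm]
  have h5 : 2 * (l - lq Q) * Real.sqrt N ≤ 2 * (1 - k) * l * Real.sqrt N := by
    refine mul_le_mul_of_nonneg_right ?_ hS0
    rw [hlq]
    linarith
  linarith

end Pool.Agent.Lib.MP_bf61d2_nt.MV59U
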